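import Pool.Agent.Hume.Inner

/-!
The new numbers of the columns of an invariant binary relation.
-/

namespace Pool.Agent.Hume

open Set Function

theorem sw_conj {A : Type} {f : A → A} (hf : Injective f) (c d x : A) :
    f (sw c d x) = sw (f c) (f d) (f x) := by
  classical
  have h := hf.swap_apply c d x
  have e1 : sw c d x = Equiv.swap c d x := by
    unfold sw; congr!
  have e2 : sw (f c) (f d) (f x) = Equiv.swap (f c) (f d) (f x) := by
    unfold sw; congr!
  rw [e1, e2, h]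

section
variable {M : Str Empty} [hM : CompStr M]

open Classical in
/-- The new number of a set. -/
noncomputable def nmN (X : Set M.Obj) : M.Obj :=
  if h : ∃ m, NumN X m then h.choose else M.neObj.some

theorem NSet.numN [NotGood M] {X : Set M.Obj} (h : NSet X) : NumN X (nmN X) := by
  have h' := NumN.exists h
  unfold nmN
  rw [dif_pos h']
  exact h'.choose_spec

omit hM in
theorem Inv2.colm {S : Set (M.Obj × M.Obj)} {P : Set M.Obj} (h : Inv2 P S) (n : M.Obj) :
    Inv1 (insert n P) (colm S n) := by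
  intro a b ha hb
  have h1 := h a b (fun h => ha (Or.inr h)) (fun h => hb (Or.inr h)) n a
  rw [sw_ne (fun h => ha (Or.inl h.symm)) (fun h => hb (Or.inl h.symm)), sw_left] at h1
  exact h1

variable [hN : NotGood M]

theorem Inv2.nset {S : Set (M.Obj × M.Obj)} [Rep2 M S] {P : Set M.Obj} (hP : SJ P)
    (h : Inv2 P S) (n : M.Obj) : NSet (Hume.colm S n) :=
  (h.colm n).nset (hP.insert n)

variable [hH : HPStr M]

theorem NumN.eq_nmN {X : Set M.Obj} {m : M.Obj} (h : NumN X m) : m = nmN X :=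
  h.unique h.nset.numN

/-- Off `P` the number of a column is constant. -/
theorem nmN_colm_off {S : Set (M.Obj × M.Obj)} [Rep2 M S] {P : Set M.Obj} (hP : SJ P)
    (h : Inv2 P S) {n n' : M.Obj} (hn : n ∉ P) (hn' : n' ∉ P) :
    nmN (colm S n) = nmN (colm S n') := by
  rw [numN_hp (h.nset hP n).numN (h.nset hP n').numN]
  refine ⟨sw n n', RF.sw n n' _, ⟨?_, sw_inj.injOn, ?_⟩, insert n (insert n' P),
    (hP.insert n').insert n, ?_⟩
  · intro y hy
    have := (h n n' hn hn' n y).mp hy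
    rw [sw_left] at this
    exact this
  · intro y hy
    refine ⟨sw n n' y, ?_, sw_sw⟩
    have := (h n n' hn hn' n' y).mp hy
    rw [sw_right] at this
    exact this
  · intro a b ha hb x y
    have ha1 : n ≠ a := fun h => ha (Or.inl h.symm)
    have ha2 : n' ≠ a := fun h => ha (Or.inr (Or.inl h.symm))
    have ha3 : a ∉ P := fun h => ha (Or.inr (Or.inr h))
    have hb1 : n ≠ b := fun h => hb (Or.inl h.symm)
    have hb2 : n' ≠ b := fun h => hb (Or.inr (Or.inl h.symm))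
    have hb3 : b ∉ P := fun h => hb (Or.inr (Or.inr h))
    have h1 := h a b ha3 hb3 n x
    rw [sw_ne ha1 hb1] at h1
    have h2 := sw_conj (sw_inj (a := a) (b := b)) n n' x
    rw [sw_ne ha1 hb1, sw_ne ha2 hb2] at h2
    rw [mem_gr, mem_gr, ← h2]
    constructor
    · rintro ⟨h3, h4⟩
      exact ⟨h1.mp h3, by rw [h4]⟩
    · rintro ⟨h3, h4⟩
      exact ⟨h1.mpr h3, sw_inj h4⟩

/-- On `P` the number of a column is a represented function. -/
theorem rf_nmN_colm {S : Set (M.Obj × M.Obj)} [Rep2 M S] {P : Set M.Obj} (hP : SJ P)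
    (h : Inv2 P S) : RF (fun n => nmN (colm S n)) P := by
  have hPr := hP.rep
  obtain ⟨D, ⟨j, hj, hji, hjP, hDj⟩, hDF⟩ := hP.exists_dbl
  have hD : Dbl P D := ⟨j, hj, hji, hjP, hDj⟩
  have hj' : Rep2 M (gr j P) := hj
  obtain ⟨e, he⟩ := (hP.dbl hD).fresh
  obtain ⟨u, hu⟩ := hP.fresh
  let S' : Set (M.Obj × M.Obj) := {q |
    (¬ (q.1, u) ∈ S ∧ ((q.1, q.2) ∈ S ∨ ∃ x, (q.1, x) ∈ S ∧ (x, q.2) ∈ gr j P)) ∨
    ((q.1, u) ∈ S ∧ (q.2 = e ∨ (¬ (q.1, q.2) ∈ S ∨
      ∃ x, ¬ (q.1, x) ∈ S ∧ (x, q.2) ∈ gr j P)))}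
  have hS' : Rep2 M S' := Rep2.of_rp (p := fun n y =>
    (¬ (n, u) ∈ S ∧ ((n, y) ∈ S ∨ ∃ x, (n, x) ∈ S ∧ (x, y) ∈ gr j P)) ∨
    ((n, u) ∈ S ∧ (y = e ∨ (¬ (n, y) ∈ S ∨
      ∃ x, ¬ (n, x) ∈ S ∧ (x, y) ∈ gr j P)))) inferInstance
  refine (hP.phi.good S' hS').congr ?_
  intro n hn
  have hinv : Inv1 P (colm S n) := by
    have := h.colm n
    rwa [insert_eq_of_mem hn] at this
  apply NumN.eq_nmN
  by_cases hun : (n, u) ∈ S
  · -- the complement of the column is small
    right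
    have hsub : (colm S n)ᶜ ⊆ P := by
      intro y hy
      by_contra hyP
      exact hy ((hinv y u hyP hu).mpr hun)
    have hSJ : SJ (colm S n)ᶜ := hP.subset hsub
    have hdbl : Dbl (colm S n)ᶜ ((colm S n)ᶜ ∪ j '' (colm S n)ᶜ) :=
      ⟨j, hj.mono hsub, hji.mono hsub, fun x hx h => hjP x (hsub hx) (hsub h), rfl⟩
    refine ⟨hSJ, _, e, hdbl, ?_, ?_⟩
    · intro hmem
      apply he
      rw [hDj]
      exact union_subset_union hsub (image_mono hsub) hmem
    · congr 1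
      ext y
      constructor
      · rintro (rfl | hy | ⟨x, hx, rfl⟩)
        · exact Or.inr ⟨hun, Or.inl rfl⟩
        · exact Or.inr ⟨hun, Or.inr (Or.inl hy)⟩
        · exact Or.inr ⟨hun, Or.inr (Or.inr ⟨x, hx, hsub hx, rfl⟩)⟩
      · rintro (⟨h1, _⟩ | ⟨_, hy | hy | ⟨x, hx, hxP, hy⟩⟩)
        · exact (h1 hun).elim
        · exact Or.inl hy
        · exact Or.inr (Or.inl hy)
        · exact Or.inr (Or.inr ⟨x, hx, hy.symm⟩)
  · left
    have hsub : colm S n ⊆ P := by
      intro y hy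
      by_contra hyP
      exact hun ((hinv y u hyP hu).mp hy)
    have hSJ : SJ (colm S n) := hP.subset hsub
    have hdbl : Dbl (colm S n) (colm S n ∪ j '' (colm S n)) :=
      ⟨j, hj.mono hsub, hji.mono hsub, fun x hx h => hjP x (hsub hx) (hsub h), rfl⟩
    refine ⟨hSJ, _, hdbl, ?_⟩
    congr 1
    ext y
    constructor
    · rintro (hy | ⟨x, hx, rfl⟩)
      · exact Or.inl ⟨hun, Or.inl hy⟩
      · exact Or.inl ⟨hun, Or.inr ⟨x, hx, hsub hx, rfl⟩⟩
    · rintro (⟨_, hy | ⟨x, hx, hxP, hy⟩⟩ | ⟨h1, _⟩)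
      · exact Or.inl hy
      · exact Or.inr ⟨x, hx, hy.symm⟩
      · exact (hun h1).elim

/-- The number of a column as a function of the column. -/
theorem column {S : Set (M.Obj × M.Obj)} [Rep2 M S] {P : Set M.Obj} (hP : SJ P)
    (h : Inv2 P S) : RF (fun n => nmN (colm S n)) Set.univ ∧ ∃ P', SJ P' ∧
      ∀ a b, a ∉ P' → b ∉ P' → ∀ n, nmN (colm S (sw a b n)) = sw a b (nmN (colm S n)) := by
  have hPr := hP.rep
  have h1 := rf_nmN_colm hP h
  obtain ⟨u, hu⟩ := hP.fresh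
  have h2 : RF (fun n => nmN (colm S n)) Pᶜ := by
    refine (RF.const (nmN (colm S u)) Pᶜ).congr ?_
    intro n hn
    exact nmN_colm_off hP h hu hn
  refine ⟨?_, (P ∪ (fun n => nmN (colm S n)) '' P) ∪ {nmN (colm S u)},
    (hP.union (hP.image h1)).union (SJ.singleton _), ?_⟩
  · have := h1.union h2
    rwa [union_compl_self] at this
  · intro a b ha hb n
    have haP : a ∉ P := fun h => ha (Or.inl (Or.inl h))
    have hbP : b ∉ P := fun h => hb (Or.inl (Or.inl h))
    have hval : nmN (colm S n) ∈ (P ∪ (fun n => nmN (colm S n)) '' P) ∪ {nmN (colm S u)} := by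
      by_cases hn : n ∈ P
      · exact Or.inl (Or.inr ⟨n, hn, rfl⟩)
      · exact Or.inr (nmN_colm_off hP h hn hu)
    rw [sw_of_notMem ha hb hval]
    by_cases hn : n ∈ P
    · rw [sw_of_notMem haP hbP hn]
    · apply nmN_colm_off hP h _ hn
      rwa [sw_mem_iff haP hbP]

end

end Pool.Agent.Hume
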