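import Pool.Agent.Hume.Column

/-!
Arithmetical comprehension for the language with `c`, evaluated in structures whose relations are
relations of the given structure.
-/

namespace Pool.Agent.Hume

open Set Function

section
variable {M : Str Empty} [hM : CompStr M]

theorem Rp.reindex {P : (ℕ → M.Obj) → Prop} (h : Rp M P) (σ : ℕ → ℕ) :
    Rp M (fun e => P (fun i => e (σ i))) := by
  obtain ⟨k, R, hR⟩ := h
  have : (fun e : ℕ → M.Obj => P (fun i => e (σ i))) =
      fun e => M.App k R (fun i => e (σ i)) := by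
    funext e; exact propext (hR _)
  rw [this]
  exact Rp.app_terms k R (fun i e => e (σ i)) (fun i => inferInstance)

omit hM in
theorem push_zero {A : Type} (x : Fin 0 → A) (e : ℕ → A) : push x e = e := by
  funext i
  unfold push
  rw [dif_neg (Nat.not_lt_zero i)]
  rfl

/-- Adding a first element to a sequence. -/
def con {A : Type} (a : A) (e : ℕ → A) : ℕ → A := fun i => Nat.casesOn i a (fun j => e j)

theorem push_cons {A : Type} {n : ℕ} (a : A) (x : Fin n → A) (e : ℕ → A) :
    push (Fin.cons a x : Fin (n + 1) → A) e = con a (push x e) := by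
  funext i
  cases i with
  | zero => rfl
  | succ j =>
    change _ = push x e j
    unfold push
    by_cases h : j < n
    · rw [dif_pos h, dif_pos (Nat.succ_lt_succ h)]
      have : (⟨j + 1, Nat.succ_lt_succ h⟩ : Fin (n + 1)) = Fin.succ ⟨j, h⟩ := rfl
      rw [this, Fin.cons_succ]
    · rw [dif_neg h, dif_neg (by omega)]
      congr 1
      omega

theorem Rp.exBlock (n : ℕ) {P : (ℕ → M.Obj) → Prop} (h : Rp M P) :
    Rp M (fun e => ∃ y : Fin n → M.Obj, P (push y e)) := by
  induction n generalizing P with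
  | zero =>
    have : (fun e => ∃ y : Fin 0 → M.Obj, P (push y e)) = P := by
      funext e
      simp [push_zero]
    rwa [this]
  | succ n ih =>
    have h1 : Rp M (fun e => ∃ a, P (con a e)) := by
      apply Rp.ex'
      have : (fun e : ℕ → M.Obj => P (con (e 0) (fun i => e (i + 1)))) = P := by
        funext e
        congr 1
        funext i
        cases i <;> rfl
      rwa [this]
    have h2 := ih h1
    have : (fun e => ∃ y : Fin (n + 1) → M.Obj, P (push y e)) =
        fun e => ∃ y : Fin n → M.Obj, ∃ a, P (con a (push y e)) := by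
      funext e
      apply propext
      constructor
      · rintro ⟨y, hy⟩
        refine ⟨Fin.tail y, y 0, ?_⟩
        rw [← push_cons, Fin.cons_self_tail]
        exact hy
      · rintro ⟨y, a, hy⟩
        exact ⟨Fin.cons a y, by rw [push_cons]; exact hy⟩
    rwa [this]

theorem Rp.allFin (n : ℕ) {P : Fin n → (ℕ → M.Obj) → Prop} (h : ∀ i, Rp M (P i)) :
    Rp M (fun e => ∀ i, P i e) := by
  induction n with
  | zero =>
    have : (fun e : ℕ → M.Obj => ∀ i : Fin 0, P i e) = fun _ => True := by
      funext e; simp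
    rw [this]; infer_instance
  | succ n ih =>
    have : (fun e : ℕ → M.Obj => ∀ i : Fin (n + 1), P i e) =
        fun e => P 0 e ∧ ∀ i : Fin n, P i.succ e := by
      funext e; exact propext Fin.forall_fin_succ
    rw [this]
    have := ih (P := fun i => P i.succ) (fun i => h i.succ)
    have := h 0
    infer_instance

end

/-- A structure with `c` on the same objects, whose relations are relations of `M`. -/
def mkN (M : Str Empty) (D : ∀ k, M.Rel k → Prop) (hne : ∀ k, ∃ R, D k R)
    (nu : {R : M.Rel 0 // D 0 R} → M.Obj) (co : {R : M.Rel 1 // D 1 R} → M.Obj → M.Obj) :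
    Str Unit where
  Obj := M.Obj
  Rel k := {R : M.Rel k // D k R}
  App k R x := M.App k R.1 x
  num X := nu X
  col _ R a := co R a
  neObj := M.neObj
  neRel k := (hne k).elim fun R hR => ⟨⟨R, hR⟩⟩

section
variable {M : Str Empty} [hM : CompStr M] {D : ∀ k, M.Rel k → Prop} {hne : ∀ k, ∃ R, D k R}
  {nu : {R : M.Rel 0 // D 0 R} → M.Obj} {co : {R : M.Rel 1 // D 1 R} → M.Obj → M.Obj}

/-- The assignment for the new structure. -/
def vN (hne : ∀ k, ∃ R, D k R) (nu : {R : M.Rel 0 // D 0 R} → M.Obj)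
    (co : {R : M.Rel 1 // D 1 R} → M.Obj → M.Obj) (r : ∀ k, ℕ → {R : M.Rel k // D k R})
    (e : ℕ → M.Obj) : Val (mkN M D hne nu co) := ⟨e, r⟩

/-- The value of a term, as an object of `M`. -/
def tv (hne : ∀ k, ∃ R, D k R) (nu : {R : M.Rel 0 // D 0 R} → M.Obj)
    (co : {R : M.Rel 1 // D 1 R} → M.Obj → M.Obj) (r : ∀ k, ℕ → {R : M.Rel k // D k R})
    (t : Tm Unit) (e : ℕ → M.Obj) : M.Obj :=
  Tm.val (M := mkN M D hne nu co) (vN hne nu co r e) t

theorem rpTerm (hco : ∀ R, RF (co R) Set.univ) (r : ∀ k, ℕ → {R : M.Rel k // D k R})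
    (t : Tm Unit) : Rp M (fun e => e 0 = tv hne nu co r t (fun i => e (i + 1))) := by
  induction t with
  | var i =>
    change Rp M (fun e => e 0 = e (i + 1))
    infer_instance
  | num i =>
    change Rp M (fun e => e 0 = nu (r 0 i))
    infer_instance
  | col c i t ih =>
    have hco' : Rep2 M (gr (co (r 1 i)) Set.univ) := hco (r 1 i)
    have h1 : Rp M (fun e => e 0 = tv hne nu co r t (fun i => e (i + 2))) :=
      ih.reindex (fun n => Nat.casesOn n 0 (fun j => j + 2))
    have : (fun e : ℕ → M.Obj => e 0 = tv hne nu co r (Tm.col c i t) (fun i => e (i + 1)))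
        = fun e => ∃ z, (z = tv hne nu co r t (fun i => e (i + 1)) ∧
          (z, e 0) ∈ gr (co (r 1 i)) Set.univ) := by
      funext e
      apply propext
      constructor
      · intro h
        exact ⟨_, rfl, trivial, h⟩
      · rintro ⟨z, rfl, _, h⟩
        exact h
    rw [this]
    apply Rp.ex'
    change Rp M (fun e => e 0 = tv hne nu co r t (fun i => e (i + 2)) ∧
      (e 0, e (0 + 1)) ∈ gr (co (r 1 i)) Set.univ)
    infer_instance

theorem rpSat (hco : ∀ R, RF (co R) Set.univ) (r : ∀ k, ℕ → {R : M.Rel k // D k R})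
    (φ : Fm Unit) (hφ : φ.Arith) : Rp M (fun e => φ.Sat (vN hne nu co r e)) := by
  induction φ with
  | eq s t =>
    have h1 := rpTerm (hne := hne) (nu := nu) hco r s
    have h2 := rpTerm (hne := hne) (nu := nu) hco r t
    have : (fun e : ℕ → M.Obj => (Fm.eq s t).Sat (vN hne nu co r e)) =
        fun e => ∃ y, y = tv hne nu co r s e ∧ y = tv hne nu co r t e := by
      funext e
      apply propext
      constructor
      · intro h; exact ⟨_, rfl, h⟩
      · rintro ⟨y, h1, h2⟩; exact h1.symm.trans h2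
    rw [this]
    apply Rp.ex'
    exact Rp.and (hP := h1) (hQ := h2)
  | eqR k i j =>
    change Rp M (fun _ => r k i = r k j)
    infer_instance
  | app k i ts =>
    have h1 : Rp M (fun e => M.App k (r k i).1 (fun j => e j) ∧
        ∀ j : Fin (k + 1), e j = tv hne nu co r (ts j) (fun l => e (k + 1 + l))) := by
      have h2 : Rp M (fun e => M.App k (r k i).1 (fun j => e j)) :=
        ⟨k, (r k i).1, fun _ => Iff.rfl⟩
      have h3 : Rp M (fun e : ℕ → M.Obj => ∀ j : Fin (k + 1),
          e j = tv hne nu co r (ts j) (fun l => e (k + 1 + l))) := by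
        apply Rp.allFin
        intro j
        exact (rpTerm (hne := hne) (nu := nu) hco r (ts j)).reindex
          (fun n => Nat.casesOn n j (fun l => k + 1 + l))
      infer_instance
    have h4 := h1.exBlock (k + 1)
    have : (fun e : ℕ → M.Obj => (Fm.app k i ts).Sat (vN hne nu co r e)) =
        fun e => ∃ y : Fin (k + 1) → M.Obj, (M.App k (r k i).1 (fun j => push y e j) ∧
        ∀ j : Fin (k + 1), push y e j =
          tv hne nu co r (ts j) (fun l => push y e (k + 1 + l))) := by
      funext e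
      have h5 : ∀ y : Fin (k + 1) → M.Obj, (fun l => push y e (k + 1 + l)) = e := by
        intro y
        funext l
        unfold push
        rw [dif_neg (by omega)]
        congr 1
        omega
      have h6 : ∀ (y : Fin (k + 1) → M.Obj) (j : Fin (k + 1)), push y e j = y j := by
        intro y j
        rw [push_lt y e j.2]
      apply propext
      simp only [h5, h6]
      constructor
      · intro h
        exact ⟨fun j => tv hne nu co r (ts j) e, h, fun _ => rfl⟩
      · rintro ⟨y, h, hy⟩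
        have : y = fun j => tv hne nu co r (ts j) e := funext hy
        subst this
        exact h
    rw [this]
    exact h4
  | neg φ ih =>
    have := ih hφ
    change Rp M (fun e => ¬ φ.Sat (vN hne nu co r e))
    infer_instance
  | imp φ ψ ih ih' =>
    have := ih hφ.1
    have := ih' hφ.2
    change Rp M (fun e => φ.Sat (vN hne nu co r e) → ψ.Sat (vN hne nu co r e))
    infer_instance
  | allO φ ih =>
    have h := ih hφ
    have h' : Rp M (fun e => φ.Sat (vN hne nu co r (con (e 0) (fun i => e (i + 1))))) := by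
      have : (fun e : ℕ → M.Obj => φ.Sat (vN hne nu co r (con (e 0) (fun i => e (i + 1))))) =
          fun e => φ.Sat (vN hne nu co r e) := by
        funext e
        congr 2
        funext i
        cases i <;> rfl
      rw [this]; exact h
    change Rp M (fun e => ∀ a, φ.Sat (vN hne nu co r (con a e)))
    exact Rp.all (Q := fun e a => φ.Sat (vN hne nu co r (con a e)))
  | allR k φ ih => exact hφ.elim

/-- Transpositions outside small sets. -/
def smallF (M : Str Empty) [CompStr M] : Filter (M.Obj × M.Obj) where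
  sets := {X | ∃ P, SJ P ∧ ∀ a b, a ∉ P → b ∉ P → (a, b) ∈ X}
  univ_sets := ⟨∅, SJ.empty, fun _ _ _ _ => trivial⟩
  sets_of_superset := by
    rintro X Y ⟨P, hP, h⟩ hXY
    exact ⟨P, hP, fun a b ha hb => hXY (h a b ha hb)⟩
  inter_sets := by
    rintro X Y ⟨P, hP, h⟩ ⟨Q, hQ, h'⟩
    exact ⟨P ∪ Q, hP.union hQ, fun a b ha hb => ⟨h a b (fun h => ha (Or.inl h))
      (fun h => hb (Or.inl h)), h' a b (fun h => ha (Or.inr h)) (fun h => hb (Or.inr h))⟩⟩

theorem ev_iff {p : M.Obj × M.Obj → Prop} : (∀ᶠ q in smallF M, p q) ↔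
    ∃ P, SJ P ∧ ∀ a b, a ∉ P → b ∉ P → p (a, b) := Iff.rfl

theorem ev_fix [NotGood M] (c : M.Obj) : ∀ᶠ q in smallF M, sw q.1 q.2 c = c := by
  rw [ev_iff]
  exact ⟨{c}, SJ.singleton c, fun a b ha hb => sw_of_notMem ha hb rfl⟩

theorem evTerm [NotGood M]
    (hco : ∀ R, ∀ᶠ q in smallF M, ∀ n, co R (sw q.1 q.2 n) = sw q.1 q.2 (co R n))
    (r : ∀ k, ℕ → {R : M.Rel k // D k R}) (t : Tm Unit) :
    ∀ᶠ q in smallF M, ∀ e : ℕ → M.Obj, tv hne nu co r t (fun i => sw q.1 q.2 (e i)) =
      sw q.1 q.2 (tv hne nu co r t e) := by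
  induction t with
  | var i => exact Filter.Eventually.of_forall fun q e => rfl
  | num i =>
    filter_upwards [ev_fix (nu (r 0 i))] with q hq e
    exact hq.symm
  | col c i t ih =>
    filter_upwards [hco (r 1 i), ih] with q h1 h2 e
    change co (r 1 i) (tv hne nu co r t (fun i => sw q.1 q.2 (e i))) =
      sw q.1 q.2 (co (r 1 i) (tv hne nu co r t e))
    rw [h2 e]
    exact h1 _

theorem evSat [NotGood M]
    (hco : ∀ R, ∀ᶠ q in smallF M, ∀ n, co R (sw q.1 q.2 n) = sw q.1 q.2 (co R n))
    (hD : ∀ (k : ℕ) (R : {R : M.Rel k // D k R}), ∀ᶠ q in smallF M, ∀ x,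
      M.App k R.1 x ↔ M.App k R.1 (fun i => sw q.1 q.2 (x i)))
    (r : ∀ k, ℕ → {R : M.Rel k // D k R}) (φ : Fm Unit) (hφ : φ.Arith) :
    ∀ᶠ q in smallF M, ∀ e : ℕ → M.Obj, φ.Sat (vN hne nu co r e) ↔
      φ.Sat (vN hne nu co r (fun i => sw q.1 q.2 (e i))) := by
  induction φ with
  | eq s t =>
    filter_upwards [evTerm (hne := hne) (nu := nu) hco r s,
      evTerm (hne := hne) (nu := nu) hco r t] with q h1 h2 e
    change tv hne nu co r s e = tv hne nu co r t e ↔
      tv hne nu co r s (fun i => sw q.1 q.2 (e i)) = tv hne nu co r t (fun i => sw q.1 q.2 (e i))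
    rw [h1, h2]
    exact ⟨fun h => by rw [h], fun h => sw_inj h⟩
  | eqR k i j => exact Filter.Eventually.of_forall fun q e => Iff.rfl
  | app k i ts =>
    have h1 : ∀ᶠ q in smallF M, ∀ j, ∀ e : ℕ → M.Obj,
        tv hne nu co r (ts j) (fun i => sw q.1 q.2 (e i)) =
        sw q.1 q.2 (tv hne nu co r (ts j) e) :=
      Filter.eventually_all.mpr fun j => evTerm (hne := hne) (nu := nu) hco r (ts j)
    filter_upwards [h1, hD k (r k i)] with q h2 h3 e
    change M.App k (r k i).1 (fun j => tv hne nu co r (ts j) e) ↔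
      M.App k (r k i).1 (fun j => tv hne nu co r (ts j) (fun i => sw q.1 q.2 (e i)))
    rw [h3]
    have h4 : (fun j => sw q.1 q.2 (tv hne nu co r (ts j) e)) =
        fun j => tv hne nu co r (ts j) (fun i => sw q.1 q.2 (e i)) := by
      funext j; exact (h2 j e).symm
    rw [← h4]
  | neg φ ih =>
    filter_upwards [ih hφ] with q h e
    exact not_congr (h e)
  | imp φ ψ ih ih' =>
    filter_upwards [ih hφ.1, ih' hφ.2] with q h h' e
    exact imp_congr (h e) (h' e)
  | allO φ ih =>
    filter_upwards [ih hφ] with q h e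
    change (∀ a, φ.Sat (vN hne nu co r (con a e))) ↔
      ∀ a, φ.Sat (vN hne nu co r (con a (fun i => sw q.1 q.2 (e i))))
    have h1 : ∀ a : M.Obj, (fun i => sw q.1 q.2 (con a e i)) =
        con (sw q.1 q.2 a) (fun i => sw q.1 q.2 (e i)) := by
      intro a
      funext i
      cases i <;> rfl
    constructor
    · intro h2 a
      have h3 := (h _).mp (h2 (sw q.1 q.2 a))
      rw [h1, sw_sw] at h3
      exact h3
    · intro h2 a
      rw [h, h1]
      exact h2 _
  | allR k φ ih => exact hφ.elim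

/-- Comprehension, with invariance. -/
theorem compN [NotGood M] (hco1 : ∀ R, RF (co R) Set.univ)
    (hco : ∀ R, ∀ᶠ q in smallF M, ∀ n, co R (sw q.1 q.2 n) = sw q.1 q.2 (co R n))
    (hD : ∀ (k : ℕ) (R : {R : M.Rel k // D k R}), ∀ᶠ q in smallF M, ∀ x,
      M.App k R.1 x ↔ M.App k R.1 (fun i => sw q.1 q.2 (x i)))
    (k : ℕ) (φ : Fm Unit) (hφ : φ.Arith) (v : Val (mkN M D hne nu co)) :
    ∃ R : M.Rel k, (∀ x : Fin (k + 1) → M.Obj, M.App k R x ↔
        φ.Sat (v.consN (M := mkN M D hne nu co) x)) ∧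
      ∀ᶠ q in smallF M, ∀ x, M.App k R x ↔ M.App k R (fun i => sw q.1 q.2 (x i)) := by
  obtain ⟨o, r⟩ := v
  change ℕ → M.Obj at o
  change ∀ k, ℕ → {R : M.Rel k // D k R} at r
  have hA := rpSat (hne := hne) (nu := nu) hco1 r φ hφ
  have hB := evSat (hne := hne) (nu := nu) hco hD r φ hφ
  obtain ⟨R, hR⟩ := hA.exists_rel k o
  refine ⟨R, fun x => hR x, ?_⟩
  obtain ⟨l, S, hS⟩ := hA
  have h1 : ∀ᶠ q in smallF M, ∀ j : Fin (l + 1), sw q.1 q.2 (o j) = o j :=
    Filter.eventually_all.mpr fun j => ev_fix (o j)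
  filter_upwards [hB, h1] with q h2 h3 x
  rw [hR, hR, h2, hS, hS]
  apply iff_of_eq
  congr 1
  funext i
  unfold push
  by_cases hi : (i : ℕ) < k + 1
  · rw [dif_pos hi, dif_pos hi]
  · rw [dif_neg hi, dif_neg hi]
    exact h3 ⟨i - (k + 1), by omega⟩

/-- Comprehension, without invariance. -/
theorem compA (hco1 : ∀ R, RF (co R) Set.univ)
    (k : ℕ) (φ : Fm Unit) (hφ : φ.Arith) (v : Val (mkN M D hne nu co)) :
    ∃ R : M.Rel k, ∀ x : Fin (k + 1) → M.Obj, M.App k R x ↔
        φ.Sat (v.consN (M := mkN M D hne nu co) x) := by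
  obtain ⟨o, r⟩ := v
  exact (rpSat (hne := hne) (nu := nu) hco1 r φ hφ).exists_rel k o

end

end Pool.Agent.Hume
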