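import Mathlib

/-!
# Second-order theories of abstraction as many-sorted first-order theories

The language has a sort of objects and, for every `k`, a sort of `(k+1)`-ary relations, a function
symbol `#` from unary relations (sets) to objects, and, for the extended language, a function symbol
`c` from binary relations and objects to objects.  Variables are de Bruijn indices.  A quantifier
over objects binds the object variable `0` and shifts the other object variables by one; a
quantifier over relations of sort `k` binds the relation variable `0` of sort `k` and shifts the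
relation variables of all sorts by one.
-/

namespace Pool.Agent.Hume

/-- Object terms: variables, `#X` for a set variable `X`, and (if `C` is inhabited)
`c(R, t)` for a binary relation variable `R` and a term `t`. The language without `c` has
`C = Empty`, the language with `c` has `C = Unit`. -/
inductive Tm (C : Type) where
  | var : ℕ → Tm C
  | num : ℕ → Tm C
  | col : C → ℕ → Tm C → Tm C

/-- Formulas: equality of objects, equality of relation variables of sort `k`, application of a
relation variable of sort `k` to `k+1` terms, negation, implication, quantification over objects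
and over relations of sort `k`. -/
inductive Fm (C : Type) where
  | eq : Tm C → Tm C → Fm C
  | eqR : ℕ → ℕ → ℕ → Fm C
  | app : (k : ℕ) → ℕ → (Fin (k + 1) → Tm C) → Fm C
  | neg : Fm C → Fm C
  | imp : Fm C → Fm C → Fm C
  | allO : Fm C → Fm C
  | allR : ℕ → Fm C → Fm C

/-- A formula is arithmetical if it has no bound relation variables. -/
def Fm.Arith {C : Type} : Fm C → Prop
  | .eq _ _ => True
  | .eqR _ _ _ => True
  | .app _ _ _ => True
  | .neg φ => φ.Arith
  | .imp φ ψ => φ.Arith ∧ ψ.Arith
  | .allO φ => φ.Arith
  | .allR _ _ => False

/-- A structure: a nonempty set of objects, for every `k` a nonempty set of `(k+1)`-ary relations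
(not necessarily extensional), and the functions `#` and (for each element of `C`) `c`. -/
structure Str (C : Type) where
  Obj : Type
  Rel : ℕ → Type
  App : ∀ k, Rel k → (Fin (k + 1) → Obj) → Prop
  num : Rel 0 → Obj
  col : C → Rel 1 → Obj → Obj
  neObj : Nonempty Obj
  neRel : ∀ k, Nonempty (Rel k)

/-- An assignment of values to the variables. -/
structure Val {C : Type} (M : Str C) where
  o : ℕ → M.Obj
  r : ∀ k, ℕ → M.Rel k

/-- The sequence `x 0, x 1, …, x (n-1), e 0, e 1, …`. -/
def push {A : Type} {n : ℕ} (x : Fin n → A) (e : ℕ → A) (i : ℕ) : A :=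
  if h : i < n then x ⟨i, h⟩ else e (i - n)

/-- Assign the object `a` to the object variable `0`, shifting the others. -/
def Val.consO {C : Type} {M : Str C} (v : Val M) (a : M.Obj) : Val M :=
  ⟨fun i => Nat.casesOn i a (fun j => v.o j), v.r⟩

/-- Assign the relation `R` to the relation variable `0` of sort `k`, shifting the relation
variables of all sorts: in the new assignment the variable `j + 1` of any sort has the old value of
the variable `j`, and the variable `0` of a sort other than `k` keeps its old value. -/
def Val.consR {C : Type} {M : Str C} (v : Val M) (k : ℕ) (R : M.Rel k) : Val M :=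
  ⟨v.o, fun l i => Nat.casesOn i (Function.update (fun l => v.r l 0) k R l) (fun j => v.r l j)⟩

/-- Assign the objects `x 0, …, x (n-1)` to the first `n` object variables, shifting the
others. -/
def Val.consN {C : Type} {M : Str C} (v : Val M) {n : ℕ} (x : Fin n → M.Obj) : Val M :=
  ⟨push x v.o, v.r⟩

/-- The value of a term. -/
def Tm.val {C : Type} {M : Str C} (v : Val M) : Tm C → M.Obj
  | .var i => v.o i
  | .num i => M.num (v.r 0 i)
  | .col c i t => M.col c (v.r 1 i) (t.val v)

/-- Satisfaction. -/
def Fm.Sat {C : Type} {M : Str C} : Fm C → Val M → Prop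
  | .eq s t, v => s.val v = t.val v
  | .eqR k i j, v => v.r k i = v.r k j
  | .app k i ts, v => M.App k (v.r k i) (fun j => (ts j).val v)
  | .neg φ, v => ¬ φ.Sat v
  | .imp φ ψ, v => φ.Sat v → ψ.Sat v
  | .allO φ, v => ∀ a : M.Obj, φ.Sat (v.consO a)
  | .allR k φ, v => ∀ R : M.Rel k, φ.Sat (v.consR k R)

section
variable {C : Type} (M : Str C)

/-- `x ∈ X`. -/
def Str.Mem (x : M.Obj) (X : M.Rel 0) : Prop := M.App 0 X ![x]

/-- `R x y`. -/
def Str.Pair (R : M.Rel 1) (x y : M.Obj) : Prop := M.App 1 R ![x, y]

/-- The binary relation `R` is a bijection from the set `X` onto the set `Y`. -/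
def Str.IsBij (R : M.Rel 1) (X Y : M.Rel 0) : Prop :=
  (∀ x y, M.Pair R x y → M.Mem x X ∧ M.Mem y Y) ∧
    (∀ x, M.Mem x X → ∃! y, M.Pair R x y) ∧ (∀ y, M.Mem y Y → ∃! x, M.Pair R x y)

/-- Hume's Principle: `#X = #Y` iff some binary relation is a bijection from `X` onto `Y`. -/
def Str.HumePrinciple : Prop :=
  ∀ X Y : M.Rel 0, M.num X = M.num Y ↔ ∃ R : M.Rel 1, M.IsBij R X Y

/-- Arithmetical comprehension: for every arithmetical formula `φ` (with parameters), there is a
relation `R` with `R x ↔ φ(x)` for all tuples `x`. -/
def Str.Comprehension : Prop :=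
  ∀ (k : ℕ) (φ : Fm C), φ.Arith → ∀ v : Val M, ∃ R : M.Rel k,
    ∀ x : Fin (k + 1) → M.Obj, M.App k R x ↔ φ.Sat (v.consN x)

/-- Extensionality for relations (not an axiom of the theories below). -/
def Str.Ext : Prop := ∀ (k : ℕ) (R S : M.Rel k), (∀ x, M.App k R x ↔ M.App k S x) → R = S

/-- The axiom for `c`: if `X` is the set of all `x` with `R n x`, then `c(R, n) = #X`. -/
def Str.ColumnAxiom : Prop :=
  ∀ (c : C) (R : M.Rel 1) (n : M.Obj) (X : M.Rel 0),
    (∀ x, M.Mem x X ↔ M.Pair R n x) → M.col c R n = M.num X

end

/-- Models of `AHP₀`: Hume's Principle and arithmetical comprehension. -/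
def AHP (M : Str Empty) : Prop := M.HumePrinciple ∧ M.Comprehension

/-- Models of `AHP₀⁺`: Hume's Principle, arithmetical comprehension for the language with `c`, and
the axiom for `c`. -/
def AHPplus (M : Str Unit) : Prop := M.HumePrinciple ∧ M.Comprehension ∧ M.ColumnAxiom

/-- A relative interpretation of the language with `c` in the language without `c`, which keeps
the objects and the sorts: a formula `dom k` in the relation variable `0` of sort `k`, defining the
domain of the sort `k`; a formula `num` in the set variable `0` and the object variable `0`,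
defining the graph of `#`; a formula `col` in the binary relation variable `0` and the object
variables `0`, `1`, defining the graph of `c`. -/
structure Interp where
  dom : ℕ → Fm Empty
  num : Fm Empty
  col : Fm Empty

namespace Interp

variable (I : Interp) (M : Str Empty)

/-- The relation `R` of sort `k` belongs to the domain. -/
def Dom (k : ℕ) (R : M.Rel k) : Prop :=
  ∀ v : Val M, v.r k 0 = R → (I.dom k).Sat v

/-- The interpretation of `#X = a`. -/
def Num (X : M.Rel 0) (a : M.Obj) : Prop :=
  ∀ v : Val M, v.r 0 0 = X → v.o 0 = a → I.num.Sat v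

/-- The interpretation of `c(R, a) = b`. -/
def Col (R : M.Rel 1) (a b : M.Obj) : Prop :=
  ∀ v : Val M, v.r 1 0 = R → v.o 0 = a → v.o 1 = b → I.col.Sat v

/-- The domains are not empty and the formulas `num` and `col` define functions on them. -/
structure Total : Prop where
  dom : ∀ k, ∃ R, I.Dom M k R
  num : ∀ X, I.Dom M 0 X → ∃! a, I.Num M X a
  col : ∀ R, I.Dom M 1 R → ∀ a, ∃! b, I.Col M R a b

/-- The structure defined by the interpretation. -/
noncomputable def str (h : I.Total M) : Str Unit where
  Obj := M.Obj
  Rel k := {R : M.Rel k // I.Dom M k R}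
  App k R x := M.App k R.1 x
  num X := (h.num X.1 X.2).choose
  col _ R a := (h.col R.1 R.2 a).choose
  neObj := M.neObj
  neRel k := (h.dom k).elim fun R hR => ⟨⟨R, hR⟩⟩

end Interp

end Pool.Agent.Hume
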