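import Pool.Agent.Hume.Compr

/-!
Formulas for predicates written in the usual way.  An element of `Df P` is a formula defining the
predicate `P` in all structures; the formulas of the interpretation are computed by instance
search.
-/

namespace Pool.Agent.Hume

/-- A formula defining the predicate `P` of structures and assignments. -/
class Df (P : ∀ M : Str Empty, (ℕ → M.Obj) → (∀ k, ℕ → M.Rel k) → Prop) where
  φ : Fm Empty
  spec : ∀ M o r, φ.Sat (M := M) ⟨o, r⟩ ↔ P M o r

namespace Df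

instance eqO (i j : ℕ) : Df (fun _ o _ => o i = o j) := ⟨.eq (.var i) (.var j), fun _ _ _ => Iff.rfl⟩

instance numEq (i j : ℕ) : Df (fun M o r => M.num (r 0 i) = o j) :=
  ⟨.eq (.num i) (.var j), fun _ _ _ => Iff.rfl⟩

instance app (k l : ℕ) (f : Fin (k + 1) → ℕ) : Df (fun M o r => M.App k (r k l) (fun i => o (f i))) :=
  ⟨.app k l (fun i => .var (f i)), fun _ _ _ => Iff.rfl⟩

instance mem (i j : ℕ) : Df (fun M o r => M.Mem (o i) (r 0 j)) :=
  ⟨.app 0 j (fun _ => .var i), fun M o r => by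
    unfold Str.Mem
    have : (![o i] : Fin 1 → M.Obj) = fun _ => o i := by
      funext j
      have : j = 0 := Subsingleton.elim _ _
      subst this; rfl
    rw [this]
    exact Iff.rfl⟩

instance pair (l i j : ℕ) : Df (fun M o r => M.Pair (r 1 l) (o i) (o j)) :=
  ⟨.app 1 l (fun n => if n = 0 then .var i else .var j), fun M o r => by
    unfold Str.Pair
    have : (![o i, o j] : Fin 2 → M.Obj) =
        fun n => (if n = 0 then Tm.var i else Tm.var j : Tm Empty).val (M := M) ⟨o, r⟩ := by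
      funext n
      fin_cases n <;> rfl
    rw [this]
    exact Iff.rfl⟩

section
variable {P Q : ∀ M : Str Empty, (ℕ → M.Obj) → (∀ k, ℕ → M.Rel k) → Prop}

instance not [h : Df P] : Df (fun M o r => ¬ P M o r) :=
  ⟨.neg h.φ, fun M o r => not_congr (h.spec M o r)⟩

instance imp [h : Df P] [h' : Df Q] : Df (fun M o r => P M o r → Q M o r) :=
  ⟨.imp h.φ h'.φ, fun M o r => imp_congr (h.spec M o r) (h'.spec M o r)⟩

instance or [h : Df P] [h' : Df Q] : Df (fun M o r => P M o r ∨ Q M o r) :=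
  ⟨.imp (.neg h.φ) h'.φ, fun M o r => by
    have h1 := h.spec M o r
    have h2 := h'.spec M o r
    simp only [Fm.Sat]
    rw [h1, h2]
    tauto⟩

instance and [h : Df P] [h' : Df Q] : Df (fun M o r => P M o r ∧ Q M o r) :=
  ⟨.neg (.imp h.φ (.neg h'.φ)), fun M o r => by
    have h1 := h.spec M o r
    have h2 := h'.spec M o r
    simp only [Fm.Sat]
    rw [h1, h2]
    tauto⟩

instance iff [h : Df P] [h' : Df Q] : Df (fun M o r => P M o r ↔ Q M o r) :=
  ⟨.neg (.imp (.imp h.φ h'.φ) (.neg (.imp h'.φ h.φ))), fun M o r => by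
    have h1 := h.spec M o r
    have h2 := h'.spec M o r
    simp only [Fm.Sat]
    rw [h1, h2]
    tauto⟩

end

instance true : Df (fun _ _ _ => True) := ⟨.allO (.eq (.var 0) (.var 0)), fun M o r => by
  simp [Fm.Sat]⟩

instance allO {Q : ∀ M : Str Empty, (ℕ → M.Obj) → (∀ k, ℕ → M.Rel k) → M.Obj → Prop}
    [h : Df (fun M o r => Q M (fun i => o (i + 1)) r (o 0))] : Df (fun M o r => ∀ a, Q M o r a) :=
  ⟨.allO h.φ, fun M o r => forall_congr' fun a => h.spec M (con a o) r⟩

instance exO {Q : ∀ M : Str Empty, (ℕ → M.Obj) → (∀ k, ℕ → M.Rel k) → M.Obj → Prop}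
    [h : Df (fun M o r => Q M (fun i => o (i + 1)) r (o 0))] : Df (fun M o r => ∃ a, Q M o r a) :=
  ⟨.neg (.allO (.neg h.φ)), fun M o r => by
    have h1 : ∀ a, h.φ.Sat ((⟨o, r⟩ : Val M).consO a) ↔ Q M o r a :=
      fun a => h.spec M (con a o) r
    simp only [Fm.Sat, h1]
    exact not_forall_not⟩

theorem consR_spec {k : ℕ} {Q : ∀ M : Str Empty, (ℕ → M.Obj) → (∀ k, ℕ → M.Rel k) → M.Rel k → Prop}
    (h : Df (fun M o r => Q M o (fun l i => r l (i + 1)) (r k 0))) (M : Str Empty)
    (o : ℕ → M.Obj) (r : ∀ k, ℕ → M.Rel k) (R : M.Rel k) :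
    h.φ.Sat ((⟨o, r⟩ : Val M).consR k R) ↔ Q M o r R := by
  have h1 := h.spec M o ((⟨o, r⟩ : Val M).consR k R).r
  have h2 : ((⟨o, r⟩ : Val M).consR k R).r k 0 = R := by
    change Function.update (fun l => r l 0) k R k = R
    exact Function.update_self _ _ _
  rw [h2] at h1
  exact h1

instance allR {k : ℕ} {Q : ∀ M : Str Empty, (ℕ → M.Obj) → (∀ k, ℕ → M.Rel k) → M.Rel k → Prop}
    [h : Df (fun M o r => Q M o (fun l i => r l (i + 1)) (r k 0))] :
    Df (fun M o r => ∀ R : M.Rel k, Q M o r R) :=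
  ⟨.allR k h.φ, fun M o r => forall_congr' fun R => consR_spec h M o r R⟩

instance exR {k : ℕ} {Q : ∀ M : Str Empty, (ℕ → M.Obj) → (∀ k, ℕ → M.Rel k) → M.Rel k → Prop}
    [h : Df (fun M o r => Q M o (fun l i => r l (i + 1)) (r k 0))] :
    Df (fun M o r => ∃ R : M.Rel k, Q M o r R) :=
  ⟨.neg (.allR k (.neg h.φ)), fun M o r => by
    simp only [Fm.Sat, consR_spec h M o r]
    exact not_forall_not⟩

/-- Quantification over finitely many indices. -/
@[instance_reducible] def allFin : (n : ℕ) → (P : Fin n → ∀ M : Str Empty, (ℕ → M.Obj) → (∀ k, ℕ → M.Rel k) → Prop) →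
    (∀ i, Df (P i)) → Df (fun M o r => ∀ i, P i M o r)
  | 0, _, _ => ⟨Df.true.φ, fun M o r =>
      ⟨fun _ i => i.elim0, fun _ => (Df.true.spec M o r).mpr trivial⟩⟩
  | n + 1, P, h =>
      let _h' := allFin n (fun i => P i.succ) (fun i => h i.succ)
      let _h0 := h 0
      ⟨(Df.and (P := P 0) (Q := fun M o r => ∀ i : Fin n, P i.succ M o r)).φ, fun M o r =>
        ((Df.and (P := P 0) (Q := fun M o r => ∀ i : Fin n, P i.succ M o r)).spec M o r).trans
          (Fin.forall_fin_succ (P := fun i => P i M o r)).symm⟩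

instance allFin' {n : ℕ} {P : Fin n → ∀ M : Str Empty, (ℕ → M.Obj) → (∀ k, ℕ → M.Rel k) → Prop}
    [h : ∀ i, Df (P i)] : Df (fun M o r => ∀ i, P i M o r) := allFin n P h

/-- Iterated quantification over objects. -/
def blockFm : ℕ → Fm Empty → Fm Empty
  | 0, φ => φ
  | n + 1, φ => blockFm n (.allO φ)

theorem block_spec (n : ℕ) (φ : Fm Empty) (M : Str Empty) (o : ℕ → M.Obj)
    (r : ∀ k, ℕ → M.Rel k) : (blockFm n φ).Sat (M := M) ⟨o, r⟩ ↔
      ∀ x : Fin n → M.Obj, φ.Sat (M := M) ⟨push x o, r⟩ := by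
  induction n generalizing φ with
  | zero =>
    simp only [blockFm, push_zero]
    exact ⟨fun h _ => h, fun h => h (fun i => i.elim0)⟩
  | succ n ih =>
    simp only [blockFm]
    rw [ih]
    have h1 : ∀ (x : Fin n → M.Obj) (a : M.Obj),
        (⟨push x o, r⟩ : Val M).consO a = ⟨push (Fin.cons a x : Fin (n + 1) → M.Obj) o, r⟩ := by
      intro x a
      rw [push_cons]
      rfl
    constructor
    · intro h x
      have h2 : φ.Sat _ := h (Fin.tail x) (x 0)
      rw [h1, Fin.cons_self_tail] at h2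
      exact h2
    · intro h x a
      rw [h1]
      exact h _

theorem push_add {A : Type} {n : ℕ} (x : Fin n → A) (e : ℕ → A) (i : ℕ) :
    push x e (n + i) = e i := by
  unfold push
  rw [dif_neg (by omega)]
  congr 1
  omega

instance block {n : ℕ} {Q : ∀ M : Str Empty, (ℕ → M.Obj) → (∀ k, ℕ → M.Rel k) →
      (Fin n → M.Obj) → Prop}
    [h : Df (fun M o r => Q M (fun i => o (n + i)) r (fun i => o i))] :
    Df (fun M o r => ∀ x : Fin n → M.Obj, Q M o r x) :=
  ⟨blockFm n h.φ, fun M o r => by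
    rw [block_spec]
    apply forall_congr'
    intro x
    rw [h.spec]
    simp only [push_add]
    have : (fun i : Fin n => push x o i) = x := by
      funext i
      rw [push_lt x o i.2]
    rw [this]⟩

end Df

end Pool.Agent.Hume
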