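import Pool.Agent.Hume.Compr

/-!
The interpreted structure is a model.
-/

namespace Pool.Agent.Hume

open Set Function

section
variable {M : Str Empty} [hM : CompStr M]

/-- The relations of the new structure. -/
def InN (k : ℕ) (R : M.Rel k) : Prop :=
  ∃ P, SJ P ∧ ∀ a b, a ∉ P → b ∉ P → ∀ x : Fin (k + 1) → M.Obj,
    (M.App k R x ↔ M.App k R (fun i => sw a b (x i)))

theorem InN.ev {k : ℕ} {R : M.Rel k} (h : InN k R) :
    ∀ᶠ q in smallF M, ∀ x, M.App k R x ↔ M.App k R (fun i => sw q.1 q.2 (x i)) := h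

omit hM in
theorem fun1 {A : Type} (f : A → A) (x : A) : (fun i => f (![x] i)) = ![f x] := by
  funext i
  have : i = 0 := Subsingleton.elim _ _
  subst this; rfl

omit hM in
theorem fun2 {A : Type} (f : A → A) (x y : A) : (fun i => f (![x, y] i)) = ![f x, f y] := by
  funext i
  fin_cases i <;> rfl

omit hM in
theorem eq1 {A : Type} (x : Fin 1 → A) : x = ![x 0] := by
  funext i
  have : i = 0 := Subsingleton.elim _ _
  subst this; rfl

omit hM in
theorem eq2 {A : Type} (x : Fin 2 → A) : x = ![x 0, x 1] := by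
  funext i
  fin_cases i <;> rfl

theorem InN.nset [NotGood M] {X : M.Rel 0} (h : InN 0 X) : NSet (M.s X) := by
  obtain ⟨P, hP, h⟩ := h
  apply Inv1.nset hP
  intro a b ha hb
  have := h a b ha hb ![a]
  rw [fun1, sw_left] at this
  exact this

omit hM in
theorem InN.inv2 {R : M.Rel 1} (h : InN 1 R) : ∃ P, SJ P ∧ Inv2 P (M.p R) := by
  obtain ⟨P, hP, h⟩ := h
  refine ⟨P, hP, ?_⟩
  intro a b ha hb x y
  have := h a b ha hb ![x, y]
  rw [fun2] at this
  exact this

omit hM in
theorem inN_of_inv2 {R : M.Rel 1} {P : Set M.Obj} (hP : SJ P) (h : Inv2 P (M.p R)) :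
    InN 1 R := by
  refine ⟨P, hP, ?_⟩
  intro a b ha hb x
  rw [eq2 x, fun2]
  exact h a b ha hb _ _

theorem inN_nonempty (k : ℕ) : ∃ R : M.Rel k, InN k R := by
  obtain ⟨R, hR⟩ := (inferInstance : Rp M (fun _ => True)).exists_rel k (fun _ => M.neObj.some)
  exact ⟨R, ∅, SJ.empty, fun a b _ _ x => iff_of_true ((hR _).mpr trivial) ((hR _).mpr trivial)⟩

variable [hH : HPStr M]

theorem caseB [NotGood M] {I : Interp} (hdom : ∀ k (R : M.Rel k), I.Dom M k R ↔ InN k R)
    (hnum : ∀ X a, I.Num M X a ↔ NumN (M.s X) a)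
    (hcol : ∀ R a b, I.Col M R a b ↔ NumN (colm (M.p R) a) b) :
    ∃ h : I.Total M, AHPplus (I.str M h) := by
  have hT : I.Total M := by
    refine ⟨?_, ?_, ?_⟩
    · intro k
      obtain ⟨R, hR⟩ := inN_nonempty (M := M) k
      exact ⟨R, (hdom k R).mpr hR⟩
    · intro X hX
      have h1 := ((hdom 0 X).mp hX).nset
      refine ⟨nmN (M.s X), (hnum _ _).mpr h1.numN, ?_⟩
      intro m hm
      exact ((hnum _ _).mp hm).eq_nmN
    · intro R hR a
      obtain ⟨P, hP, h1⟩ := ((hdom 1 R).mp hR).inv2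
      have h2 := h1.nset hP a
      refine ⟨nmN (colm (M.p R) a), (hcol _ _ _).mpr h2.numN, ?_⟩
      intro m hm
      exact ((hcol _ _ _).mp hm).eq_nmN
  refine ⟨hT, ?_⟩
  -- the functions of the structure
  have hnu : ∀ X : {X : M.Rel 0 // I.Dom M 0 X}, (I.str M hT).num X = nmN (M.s X.1) := by
    intro X
    exact ((hnum _ _).mp (hT.num X.1 X.2).choose_spec.1).eq_nmN
  have hco : ∀ (R : {R : M.Rel 1 // I.Dom M 1 R}) (a : M.Obj),
      (I.str M hT).col () R a = nmN (colm (M.p R.1) a) := by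
    intro R a
    exact ((hcol _ _ _).mp (hT.col R.1 R.2 a).choose_spec.1).eq_nmN
  refine ⟨?_, ?_, ?_⟩
  · intro X Y
    change {X : M.Rel 0 // I.Dom M 0 X} at X Y
    have hX := ((hdom _ _).mp X.2).nset
    have hY := ((hdom _ _).mp Y.2).nset
    change (I.str M hT).num X = (I.str M hT).num Y ↔ _
    rw [hnu, hnu]
    refine Iff.trans (numN_hp hX.numN hY.numN) ?_
    constructor
    · rintro ⟨g, hg, hb, P, hP, hinv⟩
      obtain ⟨R, hR⟩ := hg.exists_p
      rw [← hR] at hinv
      exact ⟨⟨R, (hdom 1 R).mpr (inN_of_inv2 hP hinv)⟩, isBij_of_fun (M := M) hR.symm hb⟩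
    · rintro ⟨R, hR⟩
      change {R : M.Rel 1 // I.Dom M 1 R} at R
      have hR' : M.IsBij R.1 X.1 Y.1 := hR
      obtain ⟨g, hg, hb⟩ := exists_fun_of_isBij hR'
      obtain ⟨P, hP, hinv⟩ := ((hdom _ _).mp R.2).inv2
      refine ⟨g, ?_, hb, P, hP, ?_⟩
      · unfold RF; rw [hg]; infer_instance
      · rw [hg]; exact hinv
  · intro k φ hφ v
    have := compN (M := M) (D := I.Dom M) (hne := hT.dom)
      (nu := fun X => (hT.num X.1 X.2).choose) (co := fun R a => (hT.col R.1 R.2 a).choose)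
      (by
        intro R
        obtain ⟨P, hP, hinv⟩ := ((hdom _ _).mp R.2).inv2
        refine (column hP hinv).1.congr ?_
        intro n _
        exact (hco R n).symm)
      (by
        intro R
        obtain ⟨P, hP, hinv⟩ := ((hdom _ _).mp R.2).inv2
        obtain ⟨P', hP', h'⟩ := (column hP hinv).2
        rw [ev_iff]
        refine ⟨P', hP', ?_⟩
        intro a b ha hb n
        have h1 := h' a b ha hb n
        have h2 := hco R (sw a b n)
        have h3 := hco R n
        rw [← h2, ← h3] at h1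
        exact h1)
      (by
        intro k R
        exact ((hdom _ _).mp R.2).ev)
      k φ hφ v
    obtain ⟨R, hR, hinv⟩ := this
    exact ⟨⟨R, (hdom k R).mpr hinv⟩, hR⟩
  · intro c R n X hX
    change {X : M.Rel 0 // I.Dom M 0 X} at X
    change {R : M.Rel 1 // I.Dom M 1 R} at R
    change (I.str M hT).col () R n = (I.str M hT).num X
    rw [hco, hnu]
    congr 1
    ext y
    exact (hX y).symm

theorem caseA (hG : SGood (Set.univ : Set M.Obj)) {I : Interp}
    (hdom : ∀ k (R : M.Rel k), I.Dom M k R)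
    (hnum : ∀ X a, I.Num M X a ↔ M.num X = a)
    (hcol : ∀ R a b, I.Col M R a b ↔ nm (colm (M.p R) a) = b) :
    ∃ h : I.Total M, AHPplus (I.str M h) := by
  have hT : I.Total M := by
    refine ⟨?_, ?_, ?_⟩
    · intro k
      obtain ⟨R⟩ := M.neRel k
      exact ⟨R, hdom k R⟩
    · intro X hX
      refine ⟨M.num X, (hnum _ _).mpr rfl, ?_⟩
      intro m hm
      exact ((hnum _ _).mp hm).symm
    · intro R hR a
      refine ⟨nm (colm (M.p R) a), (hcol _ _ _).mpr rfl, ?_⟩
      intro m hm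
      exact ((hcol _ _ _).mp hm).symm
  refine ⟨hT, ?_⟩
  have hnu : ∀ X : {X : M.Rel 0 // I.Dom M 0 X}, (I.str M hT).num X = M.num X.1 := by
    intro X
    exact ((hnum _ _).mp (hT.num X.1 X.2).choose_spec.1).symm
  have hco : ∀ (R : {R : M.Rel 1 // I.Dom M 1 R}) (a : M.Obj),
      (I.str M hT).col () R a = nm (colm (M.p R.1) a) := by
    intro R a
    exact ((hcol _ _ _).mp (hT.col R.1 R.2 a).choose_spec.1).symm
  refine ⟨?_, ?_, ?_⟩
  · intro X Y
    change {X : M.Rel 0 // I.Dom M 0 X} at X Y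
    change (I.str M hT).num X = (I.str M hT).num Y ↔ _
    rw [hnu, hnu]
    refine Iff.trans (hH.hp X.1 Y.1) ?_
    constructor
    · rintro ⟨R, hR⟩
      exact ⟨⟨R, hdom 1 R⟩, hR⟩
    · rintro ⟨R, hR⟩
      change {R : M.Rel 1 // I.Dom M 1 R} at R
      exact ⟨R.1, hR⟩
  · intro k φ hφ v
    have := compA (M := M) (D := I.Dom M) (hne := hT.dom)
      (nu := fun X => (hT.num X.1 X.2).choose) (co := fun R a => (hT.col R.1 R.2 a).choose)
      (by
        intro R
        refine (hG (M.p R.1) inferInstance).congr ?_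
        intro n _
        exact (hco R n).symm)
      k φ hφ v
    obtain ⟨R, hR⟩ := this
    exact ⟨⟨R, hdom k R⟩, hR⟩
  · intro c R n X hX
    change {X : M.Rel 0 // I.Dom M 0 X} at X
    change {R : M.Rel 1 // I.Dom M 1 R} at R
    change (I.str M hT).col () R n = (I.str M hT).num X
    rw [hco, hnu, ← nm_s]
    congr 1
    ext y
    exact (hX y).symm

end

end Pool.Agent.Hume
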