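import Pool.Agent.Hume.Dfn
import Pool.Agent.Hume.Model

/-!
The formulas of the interpretation.
-/

namespace Pool.Agent.Hume

open Set Function

section defs
variable (M : Str Empty)

/-- `n ↦ #(R_n)` exists on `P` for every `R`. -/
def GoodR (P : M.Rel 0) : Prop :=
  ∀ R : M.Rel 1, ∃ F : M.Rel 1, ∀ n m : M.Obj, M.Pair F n m ↔
    (M.Mem n P ∧ ∀ X : M.Rel 0, (∀ y, M.Mem y X ↔ M.Pair R n y) → M.num X = m)

/-- `F` is an injection of `A` into `B`. -/
def InjR (F : M.Rel 1) (A B : M.Rel 0) : Prop :=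
  (∀ x y, M.Pair F x y → (M.Mem x A ∧ M.Mem y B)) ∧ (∀ x, M.Mem x A → ∃ y, M.Pair F x y) ∧
    (∀ x y z, M.Pair F x y → M.Pair F x z → y = z) ∧
    (∀ x y z, M.Pair F x z → M.Pair F y z → x = y)

def LeR (A B : M.Rel 0) : Prop := ∃ F : M.Rel 1, InjR M F A B

/-- Dedekind finite. -/
def DFR (A : M.Rel 0) : Prop :=
  ∀ F : M.Rel 1, InjR M F A A → ∀ y, M.Mem y A → ∃ x, M.Pair F x y

def CompR (Q : M.Rel 0) : Prop :=
  ∀ A B : M.Rel 0, (∀ x, M.Mem x A → M.Mem x Q) → (∀ x, M.Mem x B → M.Mem x Q) →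
    (LeR M A B ∨ LeR M B A)

/-- `D` is the union of `X` and a disjoint copy of `X`. -/
def DblR (X D : M.Rel 0) : Prop :=
  ∃ F : M.Rel 1, InjR M F X D ∧ (∀ x y, M.Pair F x y → ¬ M.Mem y X) ∧
    ∀ y, M.Mem y D ↔ (M.Mem y X ∨ ∃ x, M.Pair F x y)

def PhiR (Q : M.Rel 0) : Prop :=
  GoodR M Q ∧ CompR M Q ∧ ∃ D : M.Rel 0, DblR M Q D ∧ DFR M D

/-- Small sets. -/
def JR (P : M.Rel 0) : Prop :=
  ∀ F : M.Rel 1, (∀ x y z, M.Pair F x y → M.Pair F x z → y = z) → ∀ Q Q' : M.Rel 0,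
    PhiR M Q → (∀ y, M.Mem y Q' ↔ (M.Mem y Q ∨ ∃ x, M.Mem x P ∧ M.Pair F x y)) → PhiR M Q'

def AllGoodR : Prop := ∀ P : M.Rel 0, GoodR M P

/-- The graph of a transposition. -/
def SwR (a b x y : M.Obj) : Prop :=
  (x = a ∧ y = b) ∨ (x = b ∧ y = a) ∨ (¬ x = a ∧ ¬ x = b ∧ y = x)

/-- The new relations. -/
def InR (k : ℕ) (R : M.Rel k) : Prop :=
  ∃ P : M.Rel 0, JR M P ∧ ∀ a b, ¬ M.Mem a P → ¬ M.Mem b P → ∀ x y : Fin (k + 1) → M.Obj,
    (∀ i, SwR M a b (x i) (y i)) → (M.App k R x ↔ M.App k R y)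

/-- The graph of the new `#`. -/
def NumR (X : M.Rel 0) (m : M.Obj) : Prop :=
  (JR M X ∧ ∃ D : M.Rel 0, DblR M X D ∧ M.num D = m) ∨
    ∃ Y : M.Rel 0, (∀ x, M.Mem x Y ↔ ¬ M.Mem x X) ∧ JR M Y ∧ ∃ D E : M.Rel 0, ∃ e,
      DblR M Y D ∧ ¬ M.Mem e D ∧ (∀ x, M.Mem x E ↔ (M.Mem x D ∨ x = e)) ∧ M.num E = m

end defs

namespace Df

instance goodR (i : ℕ) : Df (fun M _ r => GoodR M (r 0 i)) := by delta GoodR; infer_instance

instance injR (l i j : ℕ) : Df (fun M _ r => InjR M (r 1 l) (r 0 i) (r 0 j)) := by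
  delta InjR; infer_instance

instance leR (i j : ℕ) : Df (fun M _ r => LeR M (r 0 i) (r 0 j)) := by
  delta LeR; infer_instance

instance dfR (i : ℕ) : Df (fun M _ r => DFR M (r 0 i)) := by
  delta DFR; infer_instance

instance compR (i : ℕ) : Df (fun M _ r => CompR M (r 0 i)) := by
  delta CompR; infer_instance

instance dblR (i j : ℕ) : Df (fun M _ r => DblR M (r 0 i) (r 0 j)) := by
  delta DblR; infer_instance

instance phiR (i : ℕ) : Df (fun M _ r => PhiR M (r 0 i)) := by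
  delta PhiR; infer_instance

instance jR (i : ℕ) : Df (fun M _ r => JR M (r 0 i)) := by
  delta JR; infer_instance

instance allGoodR : Df (fun M _ _ => AllGoodR M) := by
  delta AllGoodR; infer_instance

instance swR (a b x y : ℕ) : Df (fun M o _ => SwR M (o a) (o b) (o x) (o y)) := by
  delta SwR; infer_instance

instance inR (k i : ℕ) : Df (fun M _ r => InR M k (r k i)) := by
  delta InR; infer_instance

instance numR (i j : ℕ) : Df (fun M o r => NumR M (r 0 i) (o j)) := by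
  delta NumR; infer_instance

end Df

/-- The interpretation. -/
def interp : Interp where
  dom k := (inferInstance : Df (fun M _ r => AllGoodR M ∨ InR M k (r k 0))).φ
  num := (inferInstance : Df (fun M o r => (AllGoodR M ∧ M.num (r 0 0) = o 0) ∨
    (¬ AllGoodR M ∧ NumR M (r 0 0) (o 0)))).φ
  col := (inferInstance : Df (fun M o r => ∃ X : M.Rel 0,
    (∀ y, M.Mem y X ↔ M.Pair (r 1 0) (o 0) y) ∧ ((AllGoodR M ∧ M.num X = o 1) ∨
    (¬ AllGoodR M ∧ NumR M X (o 1))))).φ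

theorem interp_dom (M : Str Empty) (k : ℕ) (R : M.Rel k) :
    interp.Dom M k R ↔ (AllGoodR M ∨ InR M k R) := by
  have h : ∀ v : Val M, (interp.dom k).Sat v ↔ (AllGoodR M ∨ InR M k (v.r k 0)) := fun v =>
    (inferInstance : Df (fun M _ r => AllGoodR M ∨ InR M k (r k 0))).spec M v.o v.r
  constructor
  · intro hD
    have e0 : ℕ → M.Obj := fun _ => M.neObj.some
    have h1 := (h _).mp (hD (mkVal e0 k R k R) (mkVal_r0 _ _ _ _ _))
    rwa [mkVal_r0] at h1
  · intro hD v hv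
    rw [h, hv]
    exact hD

theorem interp_num (M : Str Empty) (X : M.Rel 0) (a : M.Obj) :
    interp.Num M X a ↔ ((AllGoodR M ∧ M.num X = a) ∨ (¬ AllGoodR M ∧ NumR M X a)) := by
  have h : ∀ v : Val M, interp.num.Sat v ↔ ((AllGoodR M ∧ M.num (v.r 0 0) = v.o 0) ∨
      (¬ AllGoodR M ∧ NumR M (v.r 0 0) (v.o 0))) := fun v =>
    (inferInstance : Df (fun M o r => (AllGoodR M ∧ M.num (r 0 0) = o 0) ∨
      (¬ AllGoodR M ∧ NumR M (r 0 0) (o 0)))).spec M v.o v.r
  constructor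
  · intro hD
    have h1 := (h _).mp (hD (mkVal (fun _ => a) 0 X 0 X) (mkVal_r0 _ _ _ _ _) rfl)
    rw [mkVal_r0] at h1
    exact h1
  · intro hD v hv hv'
    rw [h, hv, hv']
    exact hD

theorem interp_col (M : Str Empty) (R : M.Rel 1) (a b : M.Obj) :
    interp.Col M R a b ↔ ∃ X : M.Rel 0, (∀ y, M.Mem y X ↔ M.Pair R a y) ∧
      ((AllGoodR M ∧ M.num X = b) ∨ (¬ AllGoodR M ∧ NumR M X b)) := by
  have h : ∀ v : Val M, interp.col.Sat v ↔ ∃ X : M.Rel 0,
      (∀ y, M.Mem y X ↔ M.Pair (v.r 1 0) (v.o 0) y) ∧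
      ((AllGoodR M ∧ M.num X = v.o 1) ∨ (¬ AllGoodR M ∧ NumR M X (v.o 1))) := fun v =>
    (inferInstance : Df (fun M o r => ∃ X : M.Rel 0,
      (∀ y, M.Mem y X ↔ M.Pair (r 1 0) (o 0) y) ∧ ((AllGoodR M ∧ M.num X = o 1) ∨
      (¬ AllGoodR M ∧ NumR M X (o 1))))).spec M v.o v.r
  constructor
  · intro hD
    have h1 := (h _).mp (hD (mkVal (fun i => if i = 0 then a else b) 1 R 1 R)
      (mkVal_r0 _ _ _ _ _) rfl rfl)
    rw [mkVal_r0] at h1
    exact h1
  · intro hD v hv hv' hv''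
    rw [h, hv, hv', hv'']
    exact hD

section bridge
variable {M : Str Empty} [hM : CompStr M]

omit hM in
theorem exists_s (A : Set M.Obj) [h : Rep1 M A] : ∃ X : M.Rel 0, M.s X = A := h.exists_s

omit hM in
theorem mem_s {X : M.Rel 0} {x : M.Obj} : x ∈ M.s X ↔ M.Mem x X := Iff.rfl

omit hM in
theorem mem_p {R : M.Rel 1} {x y : M.Obj} : (x, y) ∈ M.p R ↔ M.Pair R x y := Iff.rfl

theorem injR_iff {F : M.Rel 1} {A B : M.Rel 0} : InjR M F A B ↔
    ∃ g, gr g (M.s A) = M.p F ∧ MapsTo g (M.s A) (M.s B) ∧ InjOn g (M.s A) := by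
  classical
  constructor
  · rintro ⟨h1, h2, h3, h4⟩
    have hch : ∀ x, ∃ y, M.Mem x A → M.Pair F x y := by
      intro x
      by_cases hx : M.Mem x A
      · obtain ⟨y, hy⟩ := h2 x hx
        exact ⟨y, fun _ => hy⟩
      · exact ⟨x, fun h => (hx h).elim⟩
    choose g hg using hch
    refine ⟨g, ?_, ?_, ?_⟩
    · ext ⟨x, y⟩
      constructor
      · rintro ⟨hx, hy⟩
        change y = g x at hy
        subst hy
        exact hg x hx
      · intro h
        have hx := (h1 x y h).1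
        exact ⟨hx, h3 x _ _ h (hg x hx)⟩
    · intro x hx
      exact (h1 x _ (hg x hx)).2
    · intro x hx y hy hxy
      have h5 := hg y hy
      rw [← hxy] at h5
      exact h4 _ _ _ (hg x hx) h5
  · rintro ⟨g, hg, hm, hi⟩
    have hF : ∀ x y, M.Pair F x y ↔ (M.Mem x A ∧ y = g x) := by
      intro x y
      rw [← mem_p, ← hg]
      exact Iff.rfl
    refine ⟨?_, ?_, ?_, ?_⟩
    · intro x y h
      obtain ⟨h1, rfl⟩ := (hF _ _).mp h
      exact ⟨h1, hm h1⟩
    · intro x hx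
      exact ⟨g x, (hF _ _).mpr ⟨hx, rfl⟩⟩
    · intro x y z h h'
      rw [((hF _ _).mp h).2, ((hF _ _).mp h').2]
    · intro x y z h h'
      obtain ⟨h1, h2⟩ := (hF _ _).mp h
      obtain ⟨h3, h4⟩ := (hF _ _).mp h'
      exact hi h1 h3 (h2.symm.trans h4)

theorem leR_iff {A B : M.Rel 0} : LeR M A B ↔ Emb (M.s A) (M.s B) := by
  constructor
  · rintro ⟨F, hF⟩
    obtain ⟨g, hg, hm, hi⟩ := injR_iff.mp hF
    refine ⟨g, ?_, hm, hi⟩
    unfold RF; rw [hg]; infer_instance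
  · rintro ⟨g, hg, hm, hi⟩
    obtain ⟨F, hF⟩ := hg.exists_p
    exact ⟨F, injR_iff.mpr ⟨g, hF.symm, hm, hi⟩⟩

theorem dfR_iff {A : M.Rel 0} : DFR M A ↔ DF (M.s A) := by
  constructor
  · intro h g hg hm hi
    obtain ⟨F, hF⟩ := hg.exists_p
    intro y hy
    obtain ⟨x, hx⟩ := h F (injR_iff.mpr ⟨g, hF.symm, hm, hi⟩) y hy
    rw [← mem_p, hF] at hx
    exact ⟨x, hx.1, hx.2.symm⟩
  · intro h F hF y hy
    obtain ⟨g, hg, hm, hi⟩ := injR_iff.mp hF
    have hgr : RF g (M.s A) := by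
      unfold RF; rw [hg]; infer_instance
    obtain ⟨x, hx, hxy⟩ := h g hgr hm hi hy
    refine ⟨x, ?_⟩
    rw [← mem_p, ← hg]
    exact ⟨hx, hxy.symm⟩

theorem compR_iff {Q : M.Rel 0} : CompR M Q ↔ SComp (M.s Q) := by
  constructor
  · intro h A B hA hB hAQ hBQ
    obtain ⟨X, rfl⟩ := hA.exists_s
    obtain ⟨Y, rfl⟩ := hB.exists_s
    rw [← leR_iff, ← leR_iff]
    exact h X Y (fun x hx => hAQ hx) (fun x hx => hBQ hx)
  · intro h A B hA hB
    rw [leR_iff, leR_iff]
    exact h _ _ inferInstance inferInstance (fun x hx => hA x hx) (fun x hx => hB x hx)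

theorem dblR_iff {X D : M.Rel 0} : DblR M X D ↔ Dbl (M.s X) (M.s D) := by
  constructor
  · rintro ⟨F, hF, h1, h2⟩
    obtain ⟨g, hg, hm, hi⟩ := injR_iff.mp hF
    have hgr : RF g (M.s X) := by
      unfold RF; rw [hg]; infer_instance
    have hF' : ∀ x y, M.Pair F x y ↔ (M.Mem x X ∧ y = g x) := by
      intro x y
      rw [← mem_p, ← hg]
      exact Iff.rfl
    refine ⟨g, hgr, hi, ?_, ?_⟩
    · intro x hx
      exact h1 x _ ((hF' _ _).mpr ⟨hx, rfl⟩)
    · ext y
      refine Iff.trans (h2 y) ?_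
      constructor
      · rintro (h | ⟨x, hx⟩)
        · exact Or.inl h
        · obtain ⟨h3, h4⟩ := (hF' _ _).mp hx
          exact Or.inr ⟨x, h3, h4.symm⟩
      · rintro (h | ⟨x, hx, hxy⟩)
        · exact Or.inl h
        · exact Or.inr ⟨x, (hF' _ _).mpr ⟨hx, hxy.symm⟩⟩
  · rintro ⟨g, hg, hi, h1, h2⟩
    obtain ⟨F, hF⟩ := hg.exists_p
    have hF' : ∀ x y, M.Pair F x y ↔ (M.Mem x X ∧ y = g x) := by
      intro x y
      rw [← mem_p, hF]
      exact Iff.rfl
    refine ⟨F, injR_iff.mpr ⟨g, hF.symm, ?_, hi⟩, ?_, ?_⟩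
    · intro x hx
      rw [h2]
      exact Or.inr ⟨x, hx, rfl⟩
    · intro x y h
      obtain ⟨h3, rfl⟩ := (hF' _ _).mp h
      exact h1 x h3
    · intro y
      rw [← mem_s, h2]
      constructor
      · rintro (h | ⟨x, hx, hxy⟩)
        · exact Or.inl h
        · exact Or.inr ⟨x, (hF' _ _).mpr ⟨hx, hxy.symm⟩⟩
      · rintro (h | ⟨x, hx⟩)
        · exact Or.inl h
        · obtain ⟨h3, h4⟩ := (hF' _ _).mp hx
          exact Or.inr ⟨x, h3, h4.symm⟩

omit hM in
theorem swR_iff {a b x y : M.Obj} : SwR M a b x y ↔ y = sw a b x := by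
  unfold SwR
  by_cases h1 : x = a
  · subst h1
    rw [sw_left]
    by_cases h2 : x = b
    · subst h2; simp
    · simp [h2]
  · by_cases h2 : x = b
    · subst h2; rw [sw_right]; simp [h1]
    · rw [sw_ne h1 h2]; simp [h1, h2]

variable [hH : HPStr M]

theorem goodR_iff {P : M.Rel 0} : GoodR M P ↔ SGood (M.s P) := by
  have key : ∀ (R : M.Rel 1) (n m : M.Obj),
      (∀ X : M.Rel 0, (∀ y, M.Mem y X ↔ M.Pair R n y) → M.num X = m) ↔
      m = nm (colm (M.p R) n) := by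
    intro R n m
    obtain ⟨X, hX⟩ := exists_s (colm (M.p R) n)
    constructor
    · intro h
      rw [← hX, nm_s]
      apply (h X _).symm
      intro y
      rw [← mem_s, hX]
      exact Iff.rfl
    · rintro rfl Y hY
      rw [← nm_s]
      congr 1
      ext y
      exact hY y
  constructor
  · intro h S hS
    obtain ⟨R, rfl⟩ := hS.exists_p
    obtain ⟨F, hF⟩ := h R
    have : gr (fun n => nm (colm (M.p R) n)) (M.s P) = M.p F := by
      ext ⟨n, m⟩
      rw [mem_p, hF, key]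
      exact Iff.rfl
    unfold RF
    rw [this]; infer_instance
  · intro h R
    have h1 : Rep2 M (gr (fun n => nm (colm (M.p R) n)) (M.s P)) := h (M.p R) inferInstance
    obtain ⟨F, hF⟩ := h1.exists_p
    refine ⟨F, fun n m => ?_⟩
    rw [← mem_p, hF, key]
    exact Iff.rfl

theorem phiR_iff {Q : M.Rel 0} : PhiR M Q ↔ SPhi (M.s Q) := by
  unfold PhiR
  rw [goodR_iff, compR_iff]
  constructor
  · rintro ⟨h1, h2, D, hD, hF⟩
    exact ⟨inferInstance, h1, h2, M.s D, dblR_iff.mp hD, dfR_iff.mp hF⟩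
  · rintro ⟨_, h1, h2, D, hD, hF⟩
    refine ⟨h1, h2, ?_⟩
    obtain ⟨E, rfl⟩ := hD.rep.exists_s
    exact ⟨E, dblR_iff.mpr hD, dfR_iff.mpr hF⟩

theorem jR_iff {P : M.Rel 0} : JR M P ↔ SJ (M.s P) := by
  constructor
  · intro h
    refine ⟨inferInstance, ?_⟩
    intro F hF hFf Q hQ
    obtain ⟨G, rfl⟩ := hF.exists_p
    obtain ⟨Q1, rfl⟩ := hQ.rep.exists_s
    obtain ⟨Q2, hQ2⟩ := exists_s (M.s Q1 ∪ img (M.p G) (M.s P))
    have h1 := h G (fun x y z => hFf x y z) Q1 Q2 (phiR_iff.mpr hQ) (by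
      intro y
      rw [← mem_s, hQ2]
      exact Iff.rfl)
    rw [phiR_iff, hQ2] at h1
    exact h1
  · intro h F hF Q Q' hQ hQ'
    have h1 := h.out (M.p F) inferInstance (fun x y z => hF x y z) _ (phiR_iff.mp hQ)
    rw [phiR_iff]
    have : M.s Q' = M.s Q ∪ img (M.p F) (M.s P) := by
      ext y
      exact hQ' y
    rw [this]; exact h1

theorem allGoodR_iff : AllGoodR M ↔ SGood (Set.univ : Set M.Obj) := by
  constructor
  · intro h
    obtain ⟨X, hX⟩ := exists_s (Set.univ : Set M.Obj)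
    rw [← hX]
    exact goodR_iff.mp (h X)
  · intro h X
    rw [goodR_iff]
    exact h.subset (subset_univ _)

theorem inR_iff {k : ℕ} {R : M.Rel k} : InR M k R ↔ InN k R := by
  have key : ∀ (a b : M.Obj), (∀ x y : Fin (k + 1) → M.Obj,
      (∀ i, SwR M a b (x i) (y i)) → (M.App k R x ↔ M.App k R y)) ↔
      ∀ x : Fin (k + 1) → M.Obj, (M.App k R x ↔ M.App k R (fun i => sw a b (x i))) := by
    intro a b
    constructor
    · intro h x
      exact h x _ (fun i => swR_iff.mpr rfl)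
    · intro h x y hxy
      have : y = fun i => sw a b (x i) := funext fun i => swR_iff.mp (hxy i)
      rw [this]; exact h x
  unfold InR InN
  simp only [key, jR_iff]
  constructor
  · rintro ⟨P, hP, h⟩
    exact ⟨M.s P, hP, h⟩
  · rintro ⟨P, hP, h⟩
    obtain ⟨Q, rfl⟩ := hP.rep.exists_s
    exact ⟨Q, hP, h⟩

theorem numR_iff {X : M.Rel 0} {m : M.Obj} : NumR M X m ↔ NumN (M.s X) m := by
  unfold NumR NumN
  apply or_congr
  · rw [jR_iff]
    apply and_congr_right
    intro hX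
    constructor
    · rintro ⟨D, hD, rfl⟩
      exact ⟨M.s D, dblR_iff.mp hD, nm_s D⟩
    · rintro ⟨D, hD, rfl⟩
      obtain ⟨E, rfl⟩ := hD.rep.exists_s
      exact ⟨E, dblR_iff.mpr hD, (nm_s E).symm⟩
  · constructor
    · rintro ⟨Y, hY, hJ, D, E, e, hD, he, hE, rfl⟩
      have h1 : (M.s X)ᶜ = M.s Y := by
        ext x
        exact (hY x).symm
      have h2 : insert e (M.s D) = M.s E := by
        ext x
        refine Iff.trans ?_ (hE x).symm
        exact or_comm
      rw [h1]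
      refine ⟨jR_iff.mp hJ, M.s D, e, dblR_iff.mp hD, he, ?_⟩
      rw [h2, nm_s]
    · rintro ⟨hJ, D, e, hD, he, rfl⟩
      obtain ⟨Y, hY⟩ := exists_s (M.s X)ᶜ
      rw [← hY] at hJ hD
      obtain ⟨D, rfl⟩ := hD.rep.exists_s
      obtain ⟨E, hE⟩ := exists_s (insert e (M.s D))
      refine ⟨Y, ?_, jR_iff.mpr hJ, D, E, e, dblR_iff.mpr hD, he, ?_, ?_⟩
      · intro x
        rw [← mem_s, hY]
        exact Iff.rfl
      · intro x
        rw [← mem_s, hE]
        exact or_comm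
      · rw [← nm_s, hE]

end bridge

theorem main_aux (M : Str Empty) (hM : AHP M) :
    ∃ h : interp.Total M, AHPplus (interp.str M h) := by
  have : CompStr M := ⟨hM.2⟩
  have : HPStr M := ⟨hM.1⟩
  by_cases hG : SGood (Set.univ : Set M.Obj)
  · have hA := allGoodR_iff.mpr hG
    apply caseA hG
    · intro k R
      rw [interp_dom]
      exact Or.inl hA
    · intro X a
      rw [interp_num]
      constructor
      · rintro (⟨_, h⟩ | ⟨h, _⟩)
        · exact h
        · exact (h hA).elim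
      · intro h
        exact Or.inl ⟨hA, h⟩
    · intro R a b
      rw [interp_col]
      constructor
      · rintro ⟨X, hX, ⟨_, h⟩ | ⟨h, _⟩⟩
        · have : colm (M.p R) a = M.s X := by
            ext y
            exact (hX y).symm
          rw [this, nm_s]; exact h
        · exact (h hA).elim
      · intro h
        obtain ⟨X, hX⟩ := exists_s (colm (M.p R) a)
        refine ⟨X, ?_, Or.inl ⟨hA, ?_⟩⟩
        · intro y
          rw [← mem_s, hX]
          exact Iff.rfl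
        · rw [← hX, nm_s] at h; exact h
  · have hN : NotGood M := ⟨hG⟩
    have hA : ¬ AllGoodR M := fun h => hG (allGoodR_iff.mp h)
    have key : ∀ X a, ((AllGoodR M ∧ M.num X = a) ∨ (¬ AllGoodR M ∧ NumR M X a)) ↔
        NumN (M.s X) a := by
      intro X a
      rw [← numR_iff]
      constructor
      · rintro (⟨h, _⟩ | ⟨_, h⟩)
        · exact (hA h).elim
        · exact h
      · intro h
        exact Or.inr ⟨hA, h⟩
    apply caseB
    · intro k R
      rw [interp_dom, inR_iff]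
      constructor
      · rintro (h | h)
        · exact (hA h).elim
        · exact h
      · exact Or.inr
    · intro X a
      rw [interp_num, key]
    · intro R a b
      rw [interp_col]
      simp only [key]
      constructor
      · rintro ⟨X, hX, h⟩
        have : colm (M.p R) a = M.s X := by
          ext y
          exact (hX y).symm
        rw [this]; exact h
      · intro h
        obtain ⟨X, hX⟩ := exists_s (colm (M.p R) a)
        refine ⟨X, ?_, ?_⟩
        · intro y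
          rw [← mem_s, hX]
          exact Iff.rfl
        · rw [hX]; exact h

theorem main : ∃ I : Interp, ∀ M : Str Empty, AHP M →
    ∃ h : I.Total M, AHPplus (I.str M h) ∧ (M.Ext → (I.str M h).Ext) := by
  refine ⟨interp, fun M hM => ?_⟩
  obtain ⟨h, h'⟩ := main_aux M hM
  exact ⟨h, h', fun hE k R S hRS => Subtype.ext (hE k R.1 S.1 hRS)⟩

end Pool.Agent.Hume
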