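import Pool.Agent.Hume.Small

/-!
Sets and relations invariant under transpositions outside a small set, and their numbers.
-/

namespace Pool.Agent.Hume

open Set Function

open Classical in
/-- The transposition of `a` and `b`. -/
noncomputable def sw {A : Type} (a b : A) (x : A) : A := Equiv.swap a b x

section sw
variable {A : Type} {a b x y : A}

theorem sw_left : sw a b a = b := by simp [sw]
theorem sw_right : sw a b b = a := by simp [sw]
theorem sw_sw : sw a b (sw a b x) = x := by simp [sw]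
theorem sw_ne (h1 : x ≠ a) (h2 : x ≠ b) : sw a b x = x := by
  classical
  exact Equiv.swap_apply_of_ne_of_ne h1 h2
theorem sw_inj : Injective (sw a b : A → A) := by
  intro x y h
  rw [← sw_sw (a := a) (b := b) (x := x), h, sw_sw]
theorem sw_eq_iff : sw a b x = y ↔ x = sw a b y := by
  constructor
  · rintro rfl; rw [sw_sw]
  · rintro rfl; rw [sw_sw]
theorem sw_of_notMem {P : Set A} (ha : a ∉ P) (hb : b ∉ P) (hx : x ∈ P) : sw a b x = x :=
  sw_ne (fun h => ha (h ▸ hx)) (fun h => hb (h ▸ hx))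
theorem sw_mem_iff {P : Set A} (ha : a ∉ P) (hb : b ∉ P) : sw a b x ∈ P ↔ x ∈ P := by
  constructor
  · intro h
    have := sw_of_notMem ha hb h
    rw [sw_sw] at this
    rw [← this] at h
    exact h
  · intro h; rwa [sw_of_notMem ha hb h]

end sw

/-- A set of objects invariant under transpositions outside `P`. -/
def Inv1 {A : Type} (P X : Set A) : Prop := ∀ a b, a ∉ P → b ∉ P → (a ∈ X ↔ b ∈ X)

/-- A set of pairs invariant under transpositions outside `P`. -/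
def Inv2 {A : Type} (P : Set A) (G : Set (A × A)) : Prop :=
  ∀ a b, a ∉ P → b ∉ P → ∀ x y, (x, y) ∈ G ↔ (sw a b x, sw a b y) ∈ G

theorem Inv2.mono {A : Type} {P Q : Set A} {G : Set (A × A)} (h : Inv2 P G) (hPQ : P ⊆ Q) :
    Inv2 Q G := fun a b ha hb => h a b (fun h => ha (hPQ h)) (fun h => hb (hPQ h))

theorem Inv2.of_subset {A : Type} {P : Set A} {G : Set (A × A)}
    (h : ∀ x y, (x, y) ∈ G → x ∈ P ∧ y ∈ P) : Inv2 P G := by
  intro a b ha hb x y
  constructor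
  · intro hxy
    obtain ⟨h1, h2⟩ := h x y hxy
    rwa [sw_of_notMem ha hb h1, sw_of_notMem ha hb h2]
  · intro hxy
    obtain ⟨h1, h2⟩ := h _ _ hxy
    rw [sw_mem_iff ha hb] at h1 h2
    rwa [sw_of_notMem ha hb h1, sw_of_notMem ha hb h2] at hxy

section
variable {M : Str Empty} [hM : CompStr M]

theorem RF.sw (a b : M.Obj) (A : Set M.Obj) [Rep1 M A] : RF (sw a b) A := RF.swap a b A

/-- The sets of the new structure. -/
def NSet (X : Set M.Obj) : Prop := SJ X ∨ SJ Xᶜ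

theorem Inv1.nset [NotGood M] {P X : Set M.Obj} (hP : SJ P) (h : Inv1 P X) [Rep1 M X] :
    NSet X := by
  obtain ⟨u, hu⟩ := hP.fresh
  by_cases huX : u ∈ X
  · right
    apply hP.subset
    intro x hx
    by_contra hxP
    exact hx ((h x u hxP hu).mpr huX)
  · left
    apply hP.subset
    intro x hx
    by_contra hxP
    exact huX ((h x u hxP hu).mp hx)

theorem NSet.rep {X : Set M.Obj} (h : NSet X) : Rep1 M X := by
  rcases h with h | h
  · exact h.rep
  · have := h.rep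
    have h2 : Rep1 M (Xᶜᶜ) := inferInstance
    rwa [compl_compl] at h2

omit hM in
theorem NSet.exists_inv {X : Set M.Obj} (h : NSet X) : ∃ P, SJ P ∧ Inv1 P X := by
  rcases h with h | h
  · exact ⟨X, h, fun a b ha hb => iff_of_false ha hb⟩
  · exact ⟨Xᶜ, h, fun a b ha hb => iff_of_true (not_not.mp ha) (not_not.mp hb)⟩

variable [hH : HPStr M]

/-- The new number of a set. -/
def NumN (X : Set M.Obj) (m : M.Obj) : Prop :=
  (SJ X ∧ ∃ D, Dbl X D ∧ nm D = m) ∨
    (SJ Xᶜ ∧ ∃ D e, Dbl Xᶜ D ∧ e ∉ D ∧ nm (insert e D) = m)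

omit hH in
theorem NumN.exists [NotGood M] {X : Set M.Obj} (h : NSet X) : ∃ m, NumN X m := by
  rcases h with h | h
  · obtain ⟨D, hD, _⟩ := h.exists_dbl
    exact ⟨nm D, Or.inl ⟨h, D, hD, rfl⟩⟩
  · obtain ⟨D, hD, _⟩ := h.exists_dbl
    obtain ⟨e, he⟩ := (h.dbl hD).fresh
    exact ⟨nm (insert e D), Or.inr ⟨h, D, e, hD, he, rfl⟩⟩

omit hH in
/-- Complements of small sets: a bijection of the complements that is invariant under
transpositions outside a small set gives a bijection of the small sets. -/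
theorem eqv_compl_of_bij [NotGood M] {X Y P : Set M.Obj} (hX : SJ Xᶜ) (hY : SJ Yᶜ) (hP : SJ P)
    (hXP : Xᶜ ⊆ P) (hYP : Yᶜ ⊆ P) {g : M.Obj → M.Obj} (hg : RF g X) (hb : BijOn g X Y)
    (hinv : Inv2 P (gr g X)) : Eqv Xᶜ Yᶜ := by
  classical
  have hPr := hP.rep
  have hXr := hX.rep
  have hYr := hY.rep
  have hXr' : Rep1 M X := hg.dom
  -- `g` is the identity outside `P`
  have hid : ∀ x, x ∉ P → g x = x := by
    intro x hx
    by_contra hne
    have hxX : x ∈ X := by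
      by_contra h; exact hx (hXP h)
    have hgx : (x, g x) ∈ gr g X := ⟨hxX, rfl⟩
    by_cases hgP : g x ∈ P
    · obtain ⟨x', hx'⟩ := (hP.insert x).fresh
      have h1 : x' ∉ P := fun h => hx' (Or.inr h)
      have h2 : x' ≠ x := fun h => hx' (Or.inl h)
      have h3 := (hinv x x' hx h1 x (g x)).mp hgx
      rw [sw_left, sw_of_notMem hx h1 hgP] at h3
      obtain ⟨h4, h5⟩ := h3
      exact h2 (hb.injOn h4 hxX h5.symm)
    · obtain ⟨y', hy'⟩ := ((hP.insert x).insert (g x)).fresh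
      have h1 : y' ∉ P := fun h => hy' (Or.inr (Or.inr h))
      have h2 : y' ≠ x := fun h => hy' (Or.inr (Or.inl h))
      have h3 : y' ≠ g x := fun h => hy' (Or.inl h)
      have h4 := (hinv (g x) y' hgP h1 x (g x)).mp hgx
      rw [sw_left, sw_ne (Ne.symm hne) (Ne.symm h2)] at h4
      exact h3 h4.2
  -- so it restricts to a bijection of `P \ Xᶜ` onto `P \ Yᶜ`
  have hres : Eqv (P \ Xᶜ) (P \ Yᶜ) := by
    refine ⟨g, hg.mono (fun x hx => not_not.mp hx.2), ?_, ?_, ?_⟩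
    · intro x hx
      have hxX : x ∈ X := not_not.mp hx.2
      refine ⟨?_, not_not.mpr (hb.mapsTo hxX)⟩
      by_contra hgP
      have h1 := hid _ hgP
      have h2 : g x ∈ X := by
        by_contra h; exact hgP (hXP h)
      have h3 : g x = x := hb.injOn h2 hxX h1
      exact hgP (by rw [h3]; exact hx.1)
    · intro x hx y hy hxy
      exact hb.injOn (not_not.mp hx.2) (not_not.mp hy.2) hxy
    · intro y hy
      obtain ⟨x, hx, rfl⟩ := hb.surjOn (not_not.mp hy.2)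
      refine ⟨x, ⟨?_, not_not.mpr hx⟩, rfl⟩
      by_contra hxP
      rw [hid x hxP] at hy
      exact hxP hy.1
  -- comparison of the small sets
  have key : ∀ A B : Set M.Obj, Rep1 M A → Rep1 M B → A ⊆ P → B ⊆ P → Emb A B →
      Eqv (P \ A) (P \ B) → Eqv A B := by
    intro A B hA hB hAP hBP hAB hPAB
    obtain ⟨f, hf, hm, hi⟩ := hAB
    obtain ⟨k, hk, hkb⟩ := hPAB
    have hpw := hf.piecewise hk
    have hU : A ∪ P \ A = P := union_sdiff_cancel hAP
    rw [hU] at hpw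
    have e1 : ∀ x ∈ A, A.piecewise f k x = f x := fun x hx => piecewise_eq_of_mem _ _ _ hx
    have e2 : ∀ x, x ∉ A → A.piecewise f k x = k x :=
      fun x hx => piecewise_eq_of_notMem _ _ _ hx
    have hs := hP.df _ hpw (by
      intro x hx
      by_cases hxA : x ∈ A
      · rw [e1 x hxA]; exact hBP (hm hxA)
      · rw [e2 x hxA]; exact (hkb.mapsTo ⟨hx, hxA⟩).1) (by
      intro x hx y hy hxy
      by_cases hxA : x ∈ A <;> by_cases hyA : y ∈ A
      · rw [e1 x hxA, e1 y hyA] at hxy; exact hi hxA hyA hxy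
      · rw [e1 x hxA, e2 y hyA] at hxy
        exact ((hkb.mapsTo ⟨hy, hyA⟩).2 (hxy ▸ hm hxA)).elim
      · rw [e2 x hxA, e1 y hyA] at hxy
        exact ((hkb.mapsTo ⟨hx, hxA⟩).2 (hxy ▸ hm hyA)).elim
      · rw [e2 x hxA, e2 y hyA] at hxy
        exact hkb.injOn ⟨hx, hxA⟩ ⟨hy, hyA⟩ hxy)
    refine ⟨f, hf, hm, hi, ?_⟩
    intro b hbB
    obtain ⟨a, ha, hab⟩ := hs (hBP hbB)
    by_cases haA : a ∈ A
    · rw [e1 a haA] at hab; exact ⟨a, haA, hab⟩
    · rw [e2 a haA] at hab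
      exact ((hkb.mapsTo ⟨ha, haA⟩).2 (hab ▸ hbB)).elim
  rcases hX.cmp hY with h | h
  · exact key _ _ hXr hYr hXP hYP h hres
  · exact (key _ _ hYr hXr hYP hXP h hres.symm).symm

omit hH in
/-- Conversely, a bijection of small sets gives an invariant bijection of the complements. -/
theorem bij_of_eqv_compl [NotGood M] {X Y : Set M.Obj} (hX : SJ Xᶜ) (hY : SJ Yᶜ)
    (h : Eqv Xᶜ Yᶜ) : ∃ g, RF g X ∧ BijOn g X Y ∧ ∃ P, SJ P ∧ Inv2 P (gr g X) := by
  classical
  have hXr := hX.rep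
  have hYr := hY.rep
  have hXr' : Rep1 M X := by
    have h2 : Rep1 M (Xᶜᶜ) := inferInstance
    rwa [compl_compl] at h2
  -- `A = Yᶜ \ Xᶜ`, `B = Xᶜ \ Yᶜ` are in bijection
  have hA : SJ (Yᶜ \ Xᶜ) := hY.subset sdiff_subset
  have hB : SJ (Xᶜ \ Yᶜ) := hX.subset sdiff_subset
  have key : ∀ A B C : Set M.Obj, SJ A → SJ B → SJ C → Disjoint A C → Disjoint B C →
      Eqv (A ∪ C) (B ∪ C) → Emb A B → Eqv A B := by
    intro A B C hA hB hC hAC hBC hE hAB
    obtain ⟨f, hf, hm, hi⟩ := hAB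
    have hCr := hC.rep
    have hpw := hf.piecewise (RF.id C)
    have e1 : ∀ x ∈ A, A.piecewise f id x = f x := fun x hx => piecewise_eq_of_mem _ _ _ hx
    have e2 : ∀ x ∈ C, A.piecewise f id x = x :=
      fun x hx => piecewise_eq_of_notMem _ _ _ (fun h => hAC.le_bot ⟨h, hx⟩)
    have hs := ((hA.union hC).df).surj (B := B ∪ C) hpw (by
      rintro x (hx | hx)
      · rw [e1 x hx]; exact Or.inl (hm hx)
      · rw [e2 x hx]; exact Or.inr hx) (by
      rintro x (hx | hx) y (hy | hy) hxy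
      · rw [e1 x hx, e1 y hy] at hxy; exact hi hx hy hxy
      · rw [e1 x hx, e2 y hy] at hxy; exact (hBC.le_bot ⟨hm hx, hxy ▸ hy⟩).elim
      · rw [e2 x hx, e1 y hy] at hxy; exact (hBC.le_bot ⟨hm hy, hxy ▸ hx⟩).elim
      · rw [e2 x hx, e2 y hy] at hxy; exact hxy) hE.symm.emb
    refine ⟨f, hf, hm, hi, ?_⟩
    intro b hb
    obtain ⟨a, ha, hab⟩ := hs (Or.inl hb)
    rcases ha with ha | ha
    · rw [e1 a ha] at hab; exact ⟨a, ha, hab⟩
    · rw [e2 a ha] at hab
      exact (hBC.le_bot ⟨hb, hab ▸ ha⟩).elim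
  have hC : SJ (Xᶜ ∩ Yᶜ) := hX.subset inter_subset_left
  have d1 : Disjoint (Xᶜ \ Yᶜ) (Xᶜ ∩ Yᶜ) := by
    rw [Set.disjoint_left]; rintro x ⟨_, h1⟩ ⟨_, h2⟩; exact h1 h2
  have d2 : Disjoint (Yᶜ \ Xᶜ) (Xᶜ ∩ Yᶜ) := by
    rw [Set.disjoint_left]; rintro x ⟨_, h1⟩ ⟨h2, _⟩; exact h1 h2
  have u1 : (Xᶜ \ Yᶜ) ∪ (Xᶜ ∩ Yᶜ) = Xᶜ := by
    ext x; simp only [mem_union, mem_sdiff, mem_inter_iff]; tauto
  have u2 : (Yᶜ \ Xᶜ) ∪ (Xᶜ ∩ Yᶜ) = Yᶜ := by
    ext x; simp only [mem_union, mem_sdiff, mem_inter_iff]; tauto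
  have hAB : Eqv (Yᶜ \ Xᶜ) (Xᶜ \ Yᶜ) := by
    rcases hA.cmp hB with h' | h'
    · exact key _ _ _ hA hB hC d2 d1 (by rw [u1, u2]; exact h.symm) h'
    · exact (key _ _ _ hB hA hC d1 d2 (by rw [u1, u2]; exact h) h').symm
  -- `X = (Yᶜ \ Xᶜ) ∪ (X ∩ Y)`, `Y = (Xᶜ \ Yᶜ) ∪ (X ∩ Y)`
  obtain ⟨f, hf, hb⟩ := hAB
  have hYr' : Rep1 M Y := by
    have h2 : Rep1 M (Yᶜᶜ) := inferInstance
    rwa [compl_compl] at h2
  have hpw := hf.piecewise (RF.id (X ∩ Y))
  have uX : (Yᶜ \ Xᶜ) ∪ (X ∩ Y) = X := by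
    ext x; simp only [mem_union, mem_sdiff, mem_inter_iff, mem_compl_iff]; tauto
  rw [uX] at hpw
  have e1 : ∀ x ∈ Yᶜ \ Xᶜ, (Yᶜ \ Xᶜ).piecewise f id x = f x :=
    fun x hx => piecewise_eq_of_mem _ _ _ hx
  have e2 : ∀ x ∈ X ∩ Y, (Yᶜ \ Xᶜ).piecewise f id x = x :=
    fun x hx => piecewise_eq_of_notMem _ _ _ (fun h => h.1 hx.2)
  refine ⟨_, hpw, ⟨?_, ?_, ?_⟩, Xᶜ ∪ Yᶜ, hX.union hY, ?_⟩
  · intro x hx
    rw [← uX] at hx
    rcases hx with hx | hx
    · rw [e1 x hx]; exact not_not.mp (hb.mapsTo hx).2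
    · rw [e2 x hx]; exact hx.2
  · intro x hx y hy hxy
    rw [← uX] at hx hy
    rcases hx with hx | hx <;> rcases hy with hy | hy
    · rw [e1 x hx, e1 y hy] at hxy; exact hb.injOn hx hy hxy
    · rw [e1 x hx, e2 y hy] at hxy
      exact ((hb.mapsTo hx).1 (hxy ▸ hy.1)).elim
    · rw [e2 x hx, e1 y hy] at hxy
      exact ((hb.mapsTo hy).1 (hxy ▸ hx.1)).elim
    · rw [e2 x hx, e2 y hy] at hxy; exact hxy
  · intro y hy
    by_cases hyX : y ∈ X
    · exact ⟨y, hyX, e2 y ⟨hyX, hy⟩⟩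
    · obtain ⟨x, hx, hxy⟩ := hb.surjOn (show y ∈ Xᶜ \ Yᶜ from ⟨hyX, not_not.mpr hy⟩)
      exact ⟨x, not_not.mp hx.2, by rw [e1 x hx, hxy]⟩
  · -- invariance
    intro a b ha hb' x y
    have haX : a ∈ X ∩ Y := by
      constructor
      · by_contra h; exact ha (Or.inl h)
      · by_contra h; exact ha (Or.inr h)
    have hbX : b ∈ X ∩ Y := by
      constructor
      · by_contra h; exact hb' (Or.inl h)
      · by_contra h; exact hb' (Or.inr h)
    have hgr : ∀ x y, (x, y) ∈ gr ((Yᶜ \ Xᶜ).piecewise f id) X ↔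
        (x ∈ Yᶜ \ Xᶜ ∧ y = f x) ∨ (x ∈ X ∩ Y ∧ y = x) := by
      intro x y
      rw [mem_gr]
      constructor
      · rintro ⟨hx, hy⟩
        rw [← uX] at hx
        rcases hx with hx | hx
        · rw [e1 x hx] at hy; exact Or.inl ⟨hx, hy⟩
        · rw [e2 x hx] at hy; exact Or.inr ⟨hx, hy⟩
      · rintro (⟨hx, rfl⟩ | ⟨hx, rfl⟩)
        · exact ⟨not_not.mp hx.2, (e1 x hx).symm⟩
        · exact ⟨hx.1, (e2 _ hx).symm⟩
    have hsw : ∀ x, x ∈ X ∩ Y ↔ sw a b x ∈ X ∩ Y := by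
      intro x
      by_cases h1 : x = a
      · subst h1; rw [sw_left]; exact iff_of_true haX hbX
      · by_cases h2 : x = b
        · subst h2; rw [sw_right]; exact iff_of_true hbX haX
        · rw [sw_ne h1 h2]
    rw [hgr, hgr, ← hsw]
    have h3 : ∀ x, x ∉ X ∩ Y → sw a b x = x := by
      intro x hx
      exact sw_ne (fun h => hx (h ▸ haX)) (fun h => hx (h ▸ hbX))
    constructor
    · rintro (⟨hx, rfl⟩ | ⟨hx, rfl⟩)
      · left
        rw [h3 x (fun h => hx.1 h.2), h3 (f x) (fun h => (hb.mapsTo hx).1 h.1)]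
        exact ⟨hx, rfl⟩
      · right; exact ⟨hx, rfl⟩
    · rintro (⟨hx, hy⟩ | ⟨hx, hy⟩)
      · left
        have hxx : sw a b x ∉ X ∩ Y := fun h => hx.1 h.2
        rw [← hsw] at hxx
        rw [h3 x hxx] at hx hy
        refine ⟨hx, ?_⟩
        have h4 := (hb.mapsTo hx).1
        rw [sw_eq_iff] at hy
        rw [hy]
        exact h3 _ (fun h => h4 h.1)
      · right; exact ⟨hx, sw_inj hy⟩

/-- Hume's Principle for the new numbers. -/
theorem numN_hp [NotGood M] {X Y : Set M.Obj} {m m' : M.Obj} (hm : NumN X m) (hm' : NumN Y m') :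
    m = m' ↔ ∃ g, RF g X ∧ BijOn g X Y ∧ ∃ P, SJ P ∧ Inv2 P (gr g X) := by
  rcases hm with ⟨hX, D, hD, rfl⟩ | ⟨hX, D, e, hD, he, rfl⟩ <;>
    rcases hm' with ⟨hY, E, hE, rfl⟩ | ⟨hY, E, e', hE, he', rfl⟩
  · have := hX.rep
    have := hY.rep
    have := hD.rep
    have := hE.rep
    rw [nm_eq_iff]
    constructor
    · intro h
      obtain ⟨g, hg, hb⟩ := eqv_of_dbl hD hE (hX.df_dbl hD) h (hX.cmp hY)
      refine ⟨g, hg, hb, X ∪ Y, hX.union hY, ?_⟩
      apply Inv2.of_subset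
      rintro x y ⟨hx, hy⟩
      change x ∈ X at hx
      change y = g x at hy
      subst hy
      exact ⟨Or.inl hx, Or.inr (hb.mapsTo hx)⟩
    · rintro ⟨g, hg, hb, _⟩
      exact hD.eqv hE ⟨g, hg, hb⟩
  · have := hX.rep
    have := hY.rep
    have := hD.rep
    have := hE.rep
    rw [nm_eq_iff]
    constructor
    · intro h
      exact (not_eqv_dbl_insert hD hE (hX.df_dbl hD) he' (hX.cmp hY) h).elim
    · rintro ⟨g, hg, hb, _⟩
      have h1 := hX.image hg
      rw [hb.image_eq] at h1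
      exact (h1.not_compl hY).elim
  · have := hX.rep
    have := hY.rep
    have := hD.rep
    have := hE.rep
    rw [nm_eq_iff]
    constructor
    · intro h
      exact (not_eqv_dbl_insert hE hD (hY.df_dbl hE) he (hY.cmp hX) h.symm).elim
    · rintro ⟨g, hg, hb, _⟩
      obtain ⟨k, hk, hkb⟩ := Eqv.symm ⟨g, hg, hb⟩
      have h1 := hY.image hk
      rw [hkb.image_eq] at h1
      exact (h1.not_compl hX).elim
  · have := hX.rep
    have := hY.rep
    have := hD.rep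
    have := hE.rep
    rw [nm_eq_iff]
    constructor
    · intro h
      have h1 := Eqv.of_insert he he' h
      have h2 := eqv_of_dbl hD hE (hX.df_dbl hD) h1 (hX.cmp hY)
      exact bij_of_eqv_compl hX hY h2
    · rintro ⟨g, hg, hb, P, hP, hinv⟩
      have hP' := (hP.union hX).union hY
      have h1 := eqv_compl_of_bij hX hY hP' (fun x hx => Or.inl (Or.inr hx))
        (fun x hx => Or.inr hx) hg hb (hinv.mono (fun x hx => Or.inl (Or.inl hx)))
      have h2 := hD.eqv hE h1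
      obtain ⟨f, hf, hfb⟩ := h2
      -- add a point on both sides
      classical
      have h3 := (RF.const e' ({e} : Set M.Obj)).piecewise hf
      have e1 : ({e} : Set M.Obj).piecewise (fun _ => e') f e = e' :=
        piecewise_eq_of_mem _ _ _ rfl
      have e2 : ∀ x ∈ D, ({e} : Set M.Obj).piecewise (fun _ => e') f x = f x := by
        intro x hx
        apply piecewise_eq_of_notMem
        intro hxe
        exact he (hxe ▸ hx)
      refine ⟨_, h3, ?_, ?_, ?_⟩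
      · rintro x (rfl | hx)
        · rw [e1]; exact mem_insert _ _
        · rw [e2 x hx]; exact mem_insert_of_mem _ (hfb.mapsTo hx)
      · rintro x (rfl | hx) y (rfl | hy) hxy
        · rfl
        · rw [e1, e2 y hy] at hxy; exact (he' (hxy ▸ hfb.mapsTo hy)).elim
        · rw [e1, e2 x hx] at hxy; exact (he' (hxy ▸ hfb.mapsTo hx)).elim
        · rw [e2 x hx, e2 y hy] at hxy; exact hfb.injOn hx hy hxy
      · rintro y (rfl | hy)
        · exact ⟨e, mem_insert _ _, e1⟩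
        · obtain ⟨x, hx, hxy⟩ := hfb.surjOn hy
          exact ⟨x, mem_insert_of_mem _ hx, by rw [e2 x hx, hxy]⟩

omit hM hH in
theorem NumN.nset {X : Set M.Obj} {m : M.Obj} (h : NumN X m) : NSet X := by
  rcases h with ⟨h, _⟩ | ⟨h, _⟩
  · exact Or.inl h
  · exact Or.inr h

theorem NumN.unique [NotGood M] {X : Set M.Obj} {m m' : M.Obj} (h : NumN X m)
    (h' : NumN X m') : m = m' := by
  rw [numN_hp h h']
  have := h.nset.rep
  obtain ⟨P, hP, hinv⟩ := h.nset.exists_inv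
  refine ⟨id, RF.id X, bijOn_id X, P, hP, ?_⟩
  intro a b ha hb x y
  have hx : x ∈ X ↔ sw a b x ∈ X := by
    by_cases h1 : x = a
    · subst h1; rw [sw_left]; exact hinv _ _ ha hb
    · by_cases h2 : x = b
      · subst h2; rw [sw_right]; exact (hinv _ _ ha hb).symm
      · rw [sw_ne h1 h2]
  rw [mem_gr, mem_gr, ← hx]
  constructor
  · rintro ⟨h1, h2⟩
    change y = x at h2
    subst h2
    exact ⟨h1, rfl⟩
  · rintro ⟨h1, h2⟩
    exact ⟨h1, sw_inj h2⟩

end

end Pool.Agent.Hume
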