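import Pool.Agent.Hume.Defs

/-!
Arithmetical comprehension in closure form: the predicates on sequences of objects that are given by
a relation of the structure are closed under first-order operations.
-/

namespace Pool.Agent.Hume

/-- A structure without `c` satisfying arithmetical comprehension. -/
class CompStr (M : Str Empty) : Prop where
  comp : M.Comprehension

/-- A predicate on sequences of objects that is given by a relation of the structure. -/
class Rp (M : Str Empty) (P : (ℕ → M.Obj) → Prop) : Prop where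
  out : ∃ (k : ℕ) (R : M.Rel k), ∀ e : ℕ → M.Obj, P e ↔ M.App k R (fun i => e i)

/-- Object terms: a coordinate or a constant. -/
class Tx (M : Str Empty) (t : (ℕ → M.Obj) → M.Obj) : Prop where
  out : (∃ i, t = fun e => e i) ∨ ∃ a, t = fun _ => a

section
variable {M : Str Empty}

instance Tx.proj (i : ℕ) : Tx M (fun e => e i) := ⟨Or.inl ⟨i, rfl⟩⟩

instance Tx.const (a : M.Obj) : Tx M (fun _ => a) := ⟨Or.inr ⟨a, rfl⟩⟩

/-- An assignment with given objects and two given relations. -/
noncomputable def mkVal (e : ℕ → M.Obj) (k : ℕ) (R : M.Rel k) (l : ℕ) (S : M.Rel l) : Val M :=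
  ⟨e, fun j i => if i = 0 then Function.update (fun l => (M.neRel l).some) k R j else
    Function.update (fun l => (M.neRel l).some) l S j⟩

theorem mkVal_r0 (e : ℕ → M.Obj) (k : ℕ) (R : M.Rel k) (l : ℕ) (S : M.Rel l) :
    (mkVal e k R l S).r k 0 = R := by
  simp [mkVal]

theorem mkVal_r1 (e : ℕ → M.Obj) (k : ℕ) (R : M.Rel k) (l : ℕ) (S : M.Rel l) :
    (mkVal e k R l S).r l 1 = S := by
  simp [mkVal]

theorem push_tail {A : Type} (n : ℕ) (e : ℕ → A) :
    push (fun i : Fin n => e i) (fun j => e (n + j)) = e := by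
  funext i
  unfold push
  split_ifs with h
  · rfl
  · change e (n + (i - n)) = e i
    rw [Nat.add_sub_of_le (not_lt.mp h)]

theorem push_lt {A : Type} {n : ℕ} (x : Fin n → A) (e : ℕ → A) {i : ℕ} (h : i < n) :
    push x e i = x ⟨i, h⟩ := dif_pos h

/-- A formula evaluated at an arbitrary sequence, as a relation. -/
theorem exists_rel [hM : CompStr M] (k : ℕ) (φ : Fm Empty) (hφ : φ.Arith) (v : Val M) :
    ∃ R : M.Rel k, ∀ x : Fin (k + 1) → M.Obj, M.App k R x ↔ φ.Sat (v.consN x) :=
  hM.comp k φ hφ v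

/-- If the truth of an arithmetical formula depends on the first coordinates only, then the
predicate it defines is given by a relation. -/
theorem Rp.of_formula [CompStr M] {P : (ℕ → M.Obj) → Prop} (k : ℕ) (φ : Fm Empty) (hφ : φ.Arith)
    (v : Val M)
    (h : ∀ (x : Fin (k + 1) → M.Obj) (e : ℕ → M.Obj), P (push x e) ↔ φ.Sat (v.consN x)) :
    Rp M P := by
  obtain ⟨R, hR⟩ := exists_rel k φ hφ v
  refine ⟨k, R, fun e => ?_⟩
  have h1 := h (fun i : Fin (k + 1) => e i) (fun j => e (k + 1 + j))
  rw [push_tail] at h1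
  rw [h1, hR]

instance Rp.not [CompStr M] {P : (ℕ → M.Obj) → Prop} [hP : Rp M P] :
    Rp M (fun e => ¬ P e) := by
  obtain ⟨k, R, hR⟩ := hP
  have e0 : ℕ → M.Obj := fun _ => M.neObj.some
  apply Rp.of_formula k (.neg (.app k 0 (fun i => .var i))) trivial (mkVal e0 k R k R)
  intro x e
  rw [hR]
  simp only [Fm.Sat, Val.consN, mkVal_r0, Tm.val]
  apply not_congr
  apply iff_of_eq
  congr 1
  funext i
  rw [push_lt _ _ i.2, push_lt _ _ i.2]

theorem Rp.imp' [CompStr M] {P Q : (ℕ → M.Obj) → Prop} (hP : Rp M P) (hQ : Rp M Q) :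
    Rp M (fun e => P e → Q e) := by
  obtain ⟨k, R, hR⟩ := hP
  obtain ⟨l, S, hS⟩ := hQ
  have e0 : ℕ → M.Obj := fun _ => M.neObj.some
  apply Rp.of_formula (max k l) (.imp (.app k 0 (fun i => .var i)) (.app l 1 (fun i => .var i)))
    ⟨trivial, trivial⟩ (mkVal e0 k R l S)
  intro x e
  rw [hR, hS]
  simp only [Fm.Sat, Val.consN, mkVal_r0, mkVal_r1, Tm.val]
  have h1 : (fun i : Fin (k + 1) => push x e i) = (fun i : Fin (k + 1) => push x e0 i) := by
    funext i
    rw [push_lt x e (i := i) (by omega), push_lt x e0 (i := i) (by omega)]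
  have h2 : (fun i : Fin (l + 1) => push x e i) = (fun i : Fin (l + 1) => push x e0 i) := by
    funext i
    rw [push_lt x e (i := i) (by omega), push_lt x e0 (i := i) (by omega)]
  rw [h1, h2]
  rfl


instance Rp.imp [CompStr M] {P Q : (ℕ → M.Obj) → Prop} [hP : Rp M P] [hQ : Rp M Q] :
    Rp M (fun e => P e → Q e) := Rp.imp' hP hQ

instance Rp.or [CompStr M] {P Q : (ℕ → M.Obj) → Prop} [hP : Rp M P] [hQ : Rp M Q] :
    Rp M (fun e => P e ∨ Q e) := by
  have : (fun e => P e ∨ Q e) = fun e => ¬ P e → Q e := by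
    funext e; exact propext (or_iff_not_imp_left)
  rw [this]
  exact Rp.imp' Rp.not hQ

instance Rp.and [CompStr M] {P Q : (ℕ → M.Obj) → Prop} [hP : Rp M P] [hQ : Rp M Q] :
    Rp M (fun e => P e ∧ Q e) := by
  have : (fun e => P e ∧ Q e) = fun e => ¬ (P e → ¬ Q e) := by
    funext e; apply propext; tauto
  rw [this]
  have : Rp M (fun e => P e → ¬ Q e) := Rp.imp' hP Rp.not
  exact Rp.not

instance Rp.iff [CompStr M] {P Q : (ℕ → M.Obj) → Prop} [hP : Rp M P] [hQ : Rp M Q] :
    Rp M (fun e => P e ↔ Q e) := by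
  have : (fun e => P e ↔ Q e) = fun e => (P e → Q e) ∧ (Q e → P e) := by
    funext e; exact propext iff_def
  rw [this]
  infer_instance

instance Rp.true [CompStr M] : Rp M (fun _ => True) := by
  have e0 : ℕ → M.Obj := fun _ => M.neObj.some
  have R : M.Rel 0 := (M.neRel 0).some
  apply Rp.of_formula 0 (.eq (.var 0) (.var 0)) trivial (mkVal e0 0 R 0 R)
  intro x e
  simp [Fm.Sat]

instance Rp.const [CompStr M] (p : Prop) : Rp M (fun _ => p) := by
  by_cases h : p
  · have : (fun _ : ℕ → M.Obj => p) = fun _ => True := by funext _; simp [h]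
    rw [this]; infer_instance
  · have : (fun _ : ℕ → M.Obj => p) = fun _ => ¬ True := by funext _; simp [h]
    rw [this]; infer_instance

theorem Rp.ex' [CompStr M] {Q : (ℕ → M.Obj) → M.Obj → Prop}
    (hQ : Rp M (fun e => Q (fun i => e (i + 1)) (e 0))) : Rp M (fun e => ∃ a, Q e a) := by
  obtain ⟨k, R, hR⟩ := hQ
  have e0 : ℕ → M.Obj := fun _ => M.neObj.some
  apply Rp.of_formula k (.neg (.allO (.neg (.app k 0 (fun i => .var i))))) trivial
    (mkVal e0 k R k R)
  intro x e
  simp only [Fm.Sat, Val.consN, Val.consO, mkVal_r0, Tm.val, not_forall, not_not]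
  apply exists_congr
  intro a
  have h1 := hR (fun i => Nat.casesOn i a (fun j => push x e j))
  have h2 : (fun i => (fun i => Nat.casesOn i a (fun j => push x e j) : ℕ → M.Obj) (i + 1)) =
      push x e := rfl
  rw [h2] at h1
  change Q (push x e) a ↔ _ at h1
  rw [h1]
  apply iff_of_eq
  congr 1
  funext i
  obtain ⟨i, hi⟩ := i
  cases i with
  | zero => rfl
  | succ j =>
    change push x e j = push x e0 j
    rw [push_lt x e (i := j) (by omega), push_lt x e0 (i := j) (by omega)]

instance Rp.ex [CompStr M] {Q : (ℕ → M.Obj) → M.Obj → Prop}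
    [hQ : Rp M (fun e => Q (fun i => e (i + 1)) (e 0))] : Rp M (fun e => ∃ a, Q e a) :=
  Rp.ex' hQ

instance Rp.all [CompStr M] {Q : (ℕ → M.Obj) → M.Obj → Prop}
    [hQ : Rp M (fun e => Q (fun i => e (i + 1)) (e 0))] : Rp M (fun e => ∀ a, Q e a) := by
  have : (fun e => ∀ a, Q e a) = fun e => ¬ ∃ a, ¬ Q e a := by
    funext e; apply propext; simp
  rw [this]
  have h1 : Rp M (fun e => ¬ Q (fun i => e (i + 1)) (e 0)) := Rp.not
  have h2 : Rp M (fun e => ∃ a, ¬ Q e a) := Rp.ex' h1
  exact Rp.not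

/-- Substituting coordinates and constants. -/
theorem Rp.app_terms [CompStr M] (k : ℕ) (R : M.Rel k) (t : Fin (k + 1) → (ℕ → M.Obj) → M.Obj)
    (ht : ∀ i, Tx M (t i)) : Rp M (fun e => M.App k R (fun i => t i e)) := by
  classical
  -- index of the coordinate, or of a parameter
  let f : Fin (k + 1) → ℕ := fun i => if h : ∃ j, t i = fun e => e j then h.choose else 0
  let m : ℕ := (Finset.univ.sup f) + k
  have hfm : ∀ i, f i ≤ m := fun i => by
    have : f i ≤ Finset.univ.sup f := Finset.le_sup (Finset.mem_univ i)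
    omega
  let par : ℕ → M.Obj := fun j => if h : j < k + 1 then
    (if h' : ∃ a, t ⟨j, h⟩ = fun _ => a then h'.choose else M.neObj.some) else M.neObj.some
  let g : Fin (k + 1) → Tm Empty := fun i => if ∃ j, t i = fun e => e j then .var (f i)
    else .var (m + 1 + i)
  apply Rp.of_formula m (.app k 0 g) trivial (mkVal par k R k R)
  intro x e
  simp only [Fm.Sat, mkVal_r0, Val.consN]
  apply iff_of_eq
  congr 1
  funext i
  by_cases h : ∃ j, t i = fun e => e j
  · simp only [g, if_pos h, Tm.val]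
    have h1 : t i = fun e => e (f i) := by
      simp only [f, dif_pos h]
      exact h.choose_spec
    rw [h1]
    have h2 := hfm i
    change push x e (f i) = push x par (f i)
    rw [push_lt x e (i := f i) (by omega), push_lt x par (i := f i) (by omega)]
  · simp only [g, if_neg h, Tm.val]
    have h1 : ∃ a, t i = fun _ => a := by
      rcases (ht i).out with h2 | h2
      · exact (h h2).elim
      · exact h2
    have h2 : par i = h1.choose := by
      simp only [par]
      rw [dif_pos i.2, dif_pos h1]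
    have h3 : push x par (m + 1 + i) = par i := by
      unfold push
      rw [dif_neg (by omega)]
      congr 1
      omega
    change _ = push x par (m + 1 + i)
    rw [h3, h2]
    exact congrFun h1.choose_spec (push x e)

instance Rp.mem [CompStr M] (X : M.Rel 0) {t : (ℕ → M.Obj) → M.Obj} [Tx M t] :
    Rp M (fun e => M.Mem (t e) X) := by
  have h := Rp.app_terms 0 X (fun _ => t) (fun _ => inferInstance)
  have e1 : (fun e => M.Mem (t e) X) = (fun e => M.App 0 X (fun _ => t e)) := by
    funext e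
    unfold Str.Mem
    congr 1
    funext i
    have : i = 0 := Subsingleton.elim _ _
    rw [this]; rfl
  rw [e1]; exact h

instance Rp.pair [CompStr M] (R : M.Rel 1) {s t : (ℕ → M.Obj) → M.Obj} [Tx M s] [Tx M t] :
    Rp M (fun e => M.Pair R (s e) (t e)) := by
  have h := Rp.app_terms 1 R ![s, t] (fun i => by
    fin_cases i
    · exact (inferInstance : Tx M s)
    · exact (inferInstance : Tx M t))
  have e1 : (fun e => M.Pair R (s e) (t e)) = (fun e => M.App 1 R (fun i => ![s, t] i e)) := by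
    funext e
    unfold Str.Pair
    congr 1
    funext i
    fin_cases i <;> rfl
  rw [e1]; exact h

instance Rp.eq [CompStr M] {s t : (ℕ → M.Obj) → M.Obj} [Tx M s] [Tx M t] :
    Rp M (fun e => s e = t e) := by
  obtain ⟨R, hR⟩ := exists_rel (M := M) 1 (.eq (.var 0) (.var 1)) trivial
    ⟨fun _ => M.neObj.some, fun l _ => (M.neRel l).some⟩
  have h1 : ∀ x y, M.Pair R x y ↔ x = y := by
    intro x y
    unfold Str.Pair
    rw [hR]
    simp [Fm.Sat, Tm.val, Val.consN, push]
  have : (fun e => s e = t e) = fun e => M.Pair R (s e) (t e) := by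
    funext e; exact propext (h1 _ _).symm
  rw [this]
  infer_instance

/-- A represented set of objects. -/
class Rep1 (M : Str Empty) (A : Set M.Obj) : Prop where
  out : ∃ X : M.Rel 0, ∀ x, M.Mem x X ↔ x ∈ A

/-- A represented set of pairs of objects. -/
class Rep2 (M : Str Empty) (A : Set (M.Obj × M.Obj)) : Prop where
  out : ∃ R : M.Rel 1, ∀ x y, M.Pair R x y ↔ (x, y) ∈ A

instance Rp.memSet [CompStr M] (A : Set M.Obj) [hA : Rep1 M A] {t : (ℕ → M.Obj) → M.Obj}
    [Tx M t] : Rp M (fun e => t e ∈ A) := by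
  obtain ⟨X, hX⟩ := hA
  have : (fun e => t e ∈ A) = fun e => M.Mem (t e) X := by
    funext e; exact propext (hX _).symm
  rw [this]; infer_instance

instance Rp.pairSet [CompStr M] (A : Set (M.Obj × M.Obj)) [hA : Rep2 M A]
    {s t : (ℕ → M.Obj) → M.Obj} [Tx M s] [Tx M t] : Rp M (fun e => (s e, t e) ∈ A) := by
  obtain ⟨X, hX⟩ := hA
  have : (fun e => (s e, t e) ∈ A) = fun e => M.Pair X (s e) (t e) := by
    funext e; exact propext (hX _ _).symm
  rw [this]; infer_instance

/-- Every represented predicate gives a relation of each arity. -/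
theorem Rp.exists_rel [CompStr M] {P : (ℕ → M.Obj) → Prop} (hP : Rp M P) (k : ℕ)
    (e : ℕ → M.Obj) : ∃ R : M.Rel k, ∀ x : Fin (k + 1) → M.Obj, M.App k R x ↔ P (push x e) := by
  obtain ⟨l, S, hS⟩ := hP
  obtain ⟨R, hR⟩ := Hume.exists_rel (M := M) k (.app l 0 (fun i => .var i)) trivial
    (mkVal e l S l S)
  refine ⟨R, fun x => ?_⟩
  rw [hR, hS]
  simp only [Fm.Sat, Val.consN, mkVal_r0, Tm.val]
  rfl

theorem Rep1.of_rp [CompStr M] {p : M.Obj → Prop} (h : Rp M (fun e => p (e 0))) :
    Rep1 M {x | p x} := by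
  obtain ⟨R, hR⟩ := h.exists_rel 0 (fun _ => M.neObj.some)
  refine ⟨R, fun x => ?_⟩
  unfold Str.Mem
  rw [hR]
  rfl

theorem Rep2.of_rp [CompStr M] {p : M.Obj → M.Obj → Prop} (h : Rp M (fun e => p (e 0) (e 1))) :
    Rep2 M {q | p q.1 q.2} := by
  obtain ⟨R, hR⟩ := h.exists_rel 1 (fun _ => M.neObj.some)
  refine ⟨R, fun x y => ?_⟩
  unfold Str.Pair
  rw [hR]
  rfl

end

section examples
variable {M : Str Empty} [CompStr M]

example (X : M.Rel 0) (R : M.Rel 1) (A : Set M.Obj) [Rep1 M A] (a : M.Obj) :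
    Rep1 M {x | (∃ y, M.Pair R x y ∧ ∀ z, z ∈ A → M.Mem y X ∨ z = a) ↔ x = a} :=
  Rep1.of_rp inferInstance

end examples

end Pool.Agent.Hume
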