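import Pool.Agent.Hume.Rep

/-!
Represented sets and functions, embeddings, Dedekind finite sets and doubles.
-/

namespace Pool.Agent.Hume

open Set Function

section
variable {M : Str Empty} [hM : CompStr M]

/-- The set of objects of a unary relation. -/
def Str.s (M : Str Empty) (X : M.Rel 0) : Set M.Obj := {x | M.Mem x X}

/-- The set of pairs of a binary relation. -/
def Str.p (M : Str Empty) (R : M.Rel 1) : Set (M.Obj × M.Obj) := {q | M.Pair R q.1 q.2}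

omit hM in
instance Rep1.s (X : M.Rel 0) : Rep1 M (M.s X) := ⟨X, fun _ => Iff.rfl⟩

omit hM in
instance Rep2.p (R : M.Rel 1) : Rep2 M (M.p R) := ⟨R, fun _ _ => Iff.rfl⟩

omit hM in
theorem Rep1.exists_s {A : Set M.Obj} (h : Rep1 M A) : ∃ X : M.Rel 0, M.s X = A := by
  obtain ⟨X, hX⟩ := h
  exact ⟨X, Set.ext hX⟩

omit hM in
theorem Rep2.exists_p {A : Set (M.Obj × M.Obj)} (h : Rep2 M A) : ∃ X : M.Rel 1, M.p X = A := by
  obtain ⟨X, hX⟩ := h
  exact ⟨X, Set.ext fun q => hX q.1 q.2⟩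

instance Rep1.union (A B : Set M.Obj) [Rep1 M A] [Rep1 M B] : Rep1 M (A ∪ B) :=
  Rep1.of_rp (p := fun x => x ∈ A ∨ x ∈ B) inferInstance

instance Rep1.inter (A B : Set M.Obj) [Rep1 M A] [Rep1 M B] : Rep1 M (A ∩ B) :=
  Rep1.of_rp (p := fun x => x ∈ A ∧ x ∈ B) inferInstance

instance Rep1.diff (A B : Set M.Obj) [Rep1 M A] [Rep1 M B] : Rep1 M (A \ B) :=
  Rep1.of_rp (p := fun x => x ∈ A ∧ ¬ x ∈ B) inferInstance

instance Rep1.compl (A : Set M.Obj) [Rep1 M A] : Rep1 M Aᶜ :=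
  Rep1.of_rp (p := fun x => ¬ x ∈ A) inferInstance

instance Rep1.singleton (a : M.Obj) : Rep1 M {a} :=
  Rep1.of_rp (p := fun x => x = a) inferInstance

instance Rep1.insert (a : M.Obj) (A : Set M.Obj) [Rep1 M A] : Rep1 M (insert a A) :=
  Rep1.of_rp (p := fun x => x = a ∨ x ∈ A) inferInstance

instance Rep1.empty : Rep1 M (∅ : Set M.Obj) :=
  Rep1.of_rp (p := fun _ => False) inferInstance

instance Rep1.univ : Rep1 M (Set.univ : Set M.Obj) :=
  Rep1.of_rp (p := fun _ => True) inferInstance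

/-- The image of a set under a set of pairs. -/
def img (F : Set (M.Obj × M.Obj)) (A : Set M.Obj) : Set M.Obj := {y | ∃ x, x ∈ A ∧ (x, y) ∈ F}

instance Rep1.img (F : Set (M.Obj × M.Obj)) (A : Set M.Obj) [Rep2 M F] [Rep1 M A] :
    Rep1 M (img F A) :=
  Rep1.of_rp (p := fun y => ∃ x, x ∈ A ∧ (x, y) ∈ F) inferInstance

/-- The graph of a function on a set. -/
def gr (g : M.Obj → M.Obj) (A : Set M.Obj) : Set (M.Obj × M.Obj) := {q | q.1 ∈ A ∧ q.2 = g q.1}

omit hM in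
theorem mem_gr {g : M.Obj → M.Obj} {A : Set M.Obj} {x y : M.Obj} :
    (x, y) ∈ gr g A ↔ x ∈ A ∧ y = g x := Iff.rfl

/-- The function `g` is given by a relation on the set `A`. -/
abbrev RF (g : M.Obj → M.Obj) (A : Set M.Obj) : Prop := Rep2 M (gr g A)

theorem RF.dom {g : M.Obj → M.Obj} {A : Set M.Obj} (h : RF g A) : Rep1 M A := by
  have h' : Rep2 M (gr g A) := h
  have : A = {x | ∃ y, (x, y) ∈ gr g A} := by
    ext x
    simp [mem_gr]
  rw [this]
  exact Rep1.of_rp (p := fun x => ∃ y, (x, y) ∈ gr g A) inferInstance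

theorem RF.of_rp {g : M.Obj → M.Obj} {A : Set M.Obj}
    (h : Rp M (fun e => e 0 ∈ A ∧ e 1 = g (e 0))) : RF g A :=
  Rep2.of_rp (p := fun x y => x ∈ A ∧ y = g x) h

omit hM in
theorem RF.congr {g g' : M.Obj → M.Obj} {A : Set M.Obj} (h : RF g A) (hg : EqOn g g' A) :
    RF g' A := by
  have : gr g' A = gr g A := by
    ext ⟨x, y⟩
    simp only [mem_gr]
    constructor
    · rintro ⟨h1, h2⟩; exact ⟨h1, by rw [h2, hg h1]⟩
    · rintro ⟨h1, h2⟩; exact ⟨h1, by rw [h2, hg h1]⟩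
  unfold RF
  rw [this]; exact h

theorem RF.mono {g : M.Obj → M.Obj} {A B : Set M.Obj} (h : RF g A) [Rep1 M B] (hBA : B ⊆ A) :
    RF g B := by
  have h' : Rep2 M (gr g A) := h
  have : gr g B = {q | q.1 ∈ B ∧ (q.1, q.2) ∈ gr g A} := by
    ext ⟨x, y⟩
    simp only [mem_gr, mem_ofPred_eq]
    constructor
    · rintro ⟨h1, h2⟩; exact ⟨h1, hBA h1, h2⟩
    · rintro ⟨h1, _, h2⟩; exact ⟨h1, h2⟩
  unfold RF
  rw [this]
  exact Rep2.of_rp (p := fun x y => x ∈ B ∧ (x, y) ∈ gr g A) inferInstance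

theorem RF.id (A : Set M.Obj) [Rep1 M A] : RF id A := by
  apply RF.of_rp
  change Rp M (fun e => e 0 ∈ A ∧ e 1 = e 0)
  infer_instance

theorem RF.comp {g h : M.Obj → M.Obj} {A B : Set M.Obj} (hg : RF g A) (hh : RF h B)
    (hAB : MapsTo g A B) : RF (h ∘ g) A := by
  have h1 : Rep2 M (gr g A) := hg
  have h2 : Rep2 M (gr h B) := hh
  have : gr (h ∘ g) A = {q | ∃ z, (q.1, z) ∈ gr g A ∧ (z, q.2) ∈ gr h B} := by
    ext ⟨x, y⟩
    simp only [mem_gr, mem_ofPred_eq, comp_apply]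
    constructor
    · rintro ⟨h1, h2⟩; exact ⟨g x, ⟨h1, rfl⟩, hAB h1, h2⟩
    · rintro ⟨z, ⟨h1, rfl⟩, _, h2⟩; exact ⟨h1, h2⟩
  unfold RF
  rw [this]
  exact Rep2.of_rp (p := fun x y => ∃ z, (x, z) ∈ gr g A ∧ (z, y) ∈ gr h B) inferInstance

theorem RF.image {g : M.Obj → M.Obj} {A : Set M.Obj} (hg : RF g A) : Rep1 M (g '' A) := by
  have h1 : Rep2 M (gr g A) := hg
  have : g '' A = {y | ∃ x, (x, y) ∈ gr g A} := by
    ext y
    simp only [mem_gr, mem_ofPred_eq, Set.mem_image]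
    constructor
    · rintro ⟨x, hx, rfl⟩; exact ⟨x, hx, rfl⟩
    · rintro ⟨x, hx, rfl⟩; exact ⟨x, hx, rfl⟩
  rw [this]
  exact Rep1.of_rp (p := fun y => ∃ x, (x, y) ∈ gr g A) inferInstance

theorem RF.piecewise {g h : M.Obj → M.Obj} {A B : Set M.Obj} [∀ x, Decidable (x ∈ A)] (hg : RF g A) (hh : RF h B) :
    RF (A.piecewise g h) (A ∪ B) := by
  have h1 : Rep2 M (gr g A) := hg
  have h2 : Rep2 M (gr h B) := hh
  have hA := hg.dom
  have : gr (A.piecewise g h) (A ∪ B) =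
      {q | (q.1, q.2) ∈ gr g A ∨ (¬ q.1 ∈ A ∧ (q.1, q.2) ∈ gr h B)} := by
    ext ⟨x, y⟩
    simp only [mem_gr, mem_ofPred_eq, mem_union]
    by_cases hx : x ∈ A
    · simp [hx]
    · simp [hx]
  unfold RF
  rw [this]
  exact Rep2.of_rp (p := fun x y => (x, y) ∈ gr g A ∨ (¬ x ∈ A ∧ (x, y) ∈ gr h B)) inferInstance

theorem RF.inv {g : M.Obj → M.Obj} {A : Set M.Obj} (hg : RF g A) (hinj : InjOn g A) :
    ∃ h, RF h (g '' A) ∧ BijOn h (g '' A) A ∧ (∀ x ∈ A, h (g x) = x) := by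
  classical
  have h1 : Rep2 M (gr g A) := hg
  have : Nonempty M.Obj := M.neObj
  refine ⟨invFunOn g A, ?_, ?_, ?_⟩
  · have : gr (invFunOn g A) (g '' A) = {q | (q.2, q.1) ∈ gr g A} := by
      ext ⟨y, x⟩
      simp only [mem_gr, mem_ofPred_eq]
      constructor
      · rintro ⟨⟨z, hz, rfl⟩, rfl⟩
        have : invFunOn g A (g z) = z := hinj.leftInvOn_invFunOn hz
        rw [this]; exact ⟨hz, rfl⟩
      · rintro ⟨hx, rfl⟩
        exact ⟨⟨x, hx, rfl⟩, (hinj.leftInvOn_invFunOn hx).symm⟩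
    unfold RF
    rw [this]
    exact Rep2.of_rp (p := fun y x => (x, y) ∈ gr g A) inferInstance
  · refine ⟨?_, ?_, ?_⟩
    · rintro _ ⟨z, hz, rfl⟩
      rw [hinj.leftInvOn_invFunOn hz]; exact hz
    · rintro _ ⟨z, hz, rfl⟩ _ ⟨w, hw, rfl⟩ h
      rw [hinj.leftInvOn_invFunOn hz, hinj.leftInvOn_invFunOn hw] at h
      rw [h]
    · intro z hz
      exact ⟨g z, ⟨z, hz, rfl⟩, hinj.leftInvOn_invFunOn hz⟩
  · intro x hx
    exact hinj.leftInvOn_invFunOn hx

open Classical in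
theorem RF.swap (a b : M.Obj) (A : Set M.Obj) [Rep1 M A] : RF (Equiv.swap a b) A := by
  have : gr (Equiv.swap a b) A = {q | q.1 ∈ A ∧ ((q.1 = a ∧ q.2 = b) ∨ (q.1 = b ∧ q.2 = a) ∨
      (¬ q.1 = a ∧ ¬ q.1 = b ∧ q.2 = q.1))} := by
    ext ⟨x, y⟩
    simp only [mem_gr, mem_ofPred_eq, Equiv.swap_apply_def]
    by_cases h1 : x = a
    · subst h1; by_cases h2 : x = b
      · subst h2; simp
      · simp [h2]
    · by_cases h2 : x = b
      · subst h2; simp [h1]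
      · simp [h1, h2]
  unfold RF
  rw [this]
  exact Rep2.of_rp (p := fun x y => x ∈ A ∧ ((x = a ∧ y = b) ∨ (x = b ∧ y = a) ∨
      (¬ x = a ∧ ¬ x = b ∧ y = x))) inferInstance

/-- `A` embeds in `B`. -/
def Emb (A B : Set M.Obj) : Prop := ∃ g, RF g A ∧ MapsTo g A B ∧ InjOn g A

/-- `A` and `B` are in bijection. -/
def Eqv (A B : Set M.Obj) : Prop := ∃ g, RF g A ∧ BijOn g A B

/-- Dedekind finite sets. -/
def DF (A : Set M.Obj) : Prop := ∀ g, RF g A → MapsTo g A A → InjOn g A → SurjOn g A A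

theorem Eqv.refl (A : Set M.Obj) [Rep1 M A] : Eqv A A := ⟨_, RF.id A, bijOn_id A⟩

theorem Eqv.symm {A B : Set M.Obj} (h : Eqv A B) : Eqv B A := by
  obtain ⟨g, hg, hb⟩ := h
  obtain ⟨k, hk, hkb, _⟩ := hg.inv hb.injOn
  rw [hb.image_eq] at hk hkb
  exact ⟨k, hk, hkb⟩

theorem Eqv.trans {A B C : Set M.Obj} (h : Eqv A B) (h' : Eqv B C) : Eqv A C := by
  obtain ⟨g, hg, hb⟩ := h
  obtain ⟨k, hk, hkb⟩ := h'
  exact ⟨k ∘ g, hg.comp hk hb.mapsTo, hkb.comp hb⟩

omit hM in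
theorem Eqv.emb {A B : Set M.Obj} (h : Eqv A B) : Emb A B := by
  obtain ⟨g, hg, hb⟩ := h
  exact ⟨g, hg, hb.mapsTo, hb.injOn⟩

theorem Emb.trans {A B C : Set M.Obj} (h : Emb A B) (h' : Emb B C) : Emb A C := by
  obtain ⟨g, hg, h1, h2⟩ := h
  obtain ⟨k, hk, h3, h4⟩ := h'
  exact ⟨k ∘ g, hg.comp hk h1, h3.comp h1, h4.comp h2 h1⟩

theorem Emb.of_subset {A B : Set M.Obj} [Rep1 M A] (h : A ⊆ B) : Emb A B :=
  ⟨_, RF.id A, fun _ hx => h hx, injOn_id A⟩

/-- The basic counting principle for Dedekind finite sets. -/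
theorem DF.surj {A B : Set M.Obj} (hA : DF A) {f : M.Obj → M.Obj} (hf : RF f A)
    (hm : MapsTo f A B) (hi : InjOn f A) (h : Emb B A) : SurjOn f A B := by
  obtain ⟨k, hk, h3, h4⟩ := h
  have h1 := hA (k ∘ f) (hf.comp hk hm) (h3.comp hm) (h4.comp hi hm)
  intro b hb
  obtain ⟨a, ha, hab⟩ := h1 (h3 hb)
  exact ⟨a, ha, h4 (hm ha) hb hab⟩

theorem DF.eqv {A B : Set M.Obj} (hA : DF A) (h : Eqv A B) : DF B := by
  intro g hg hm hi
  obtain ⟨f, hf, hb⟩ := h
  have h1 := hA.surj (hf.comp hg hb.mapsTo) (hm.comp hb.mapsTo) (hi.comp hb.injOn hb.mapsTo)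
    (Eqv.symm ⟨f, hf, hb⟩).emb
  intro b hbB
  obtain ⟨a, ha, hab⟩ := h1 hbB
  exact ⟨f a, hb.mapsTo ha, hab⟩

theorem DF.subset {A B : Set M.Obj} (hA : DF A) [Rep1 M A] [Rep1 M B] (hBA : B ⊆ A) : DF B := by
  classical
  intro g hg hm hi
  have hid : RF id (A \ B) := RF.id (A \ B)
  have hU : B ∪ A \ B = A := union_sdiff_cancel hBA
  have hp : RF (B.piecewise g id) A := by
    have := hg.piecewise hid
    rwa [hU] at this
  have h1 : ∀ x ∈ B, B.piecewise g id x = g x := fun x hx => piecewise_eq_of_mem _ _ _ hx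
  have h2 : ∀ x, x ∉ B → B.piecewise g id x = x := fun x hx => piecewise_eq_of_notMem _ _ _ hx
  have hs := hA _ hp (by
    intro x hx
    by_cases hxB : x ∈ B
    · rw [h1 x hxB]; exact hBA (hm hxB)
    · rw [h2 x hxB]; exact hx) (by
    intro x _ y _ hxy
    by_cases hxB : x ∈ B <;> by_cases hyB : y ∈ B
    · rw [h1 x hxB, h1 y hyB] at hxy; exact hi hxB hyB hxy
    · rw [h1 x hxB, h2 y hyB] at hxy; exact (hyB (hxy ▸ hm hxB)).elim
    · rw [h2 x hxB, h1 y hyB] at hxy; exact (hxB (hxy ▸ hm hyB)).elim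
    · rw [h2 x hxB, h2 y hyB] at hxy; exact hxy)
  intro b hb
  obtain ⟨a, ha, hab⟩ := hs (hBA hb)
  by_cases haB : a ∈ B
  · rw [h1 a haB] at hab; exact ⟨a, haB, hab⟩
  · rw [h2 a haB] at hab; exact (haB (hab ▸ hb)).elim

omit hM in
theorem DF.empty : DF (∅ : Set M.Obj) := fun _ _ _ _ => surjOn_empty _ _

theorem DF.insert {A : Set M.Obj} [Rep1 M A] (hA : DF A) (a : M.Obj) : DF (insert a A) := by
  classical
  by_cases haA : a ∈ A
  · rwa [insert_eq_of_mem haA]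
  intro g hg hm hi b hb
  by_contra hcon
  -- compose with the transposition of `a` and `b`
  have hsw : RF (Equiv.swap a b) (Insert.insert a A) := RF.swap a b _
  have hc := hg.comp hsw hm
  have hmem : ∀ x ∈ Insert.insert a A, (Equiv.swap a b) x ∈ Insert.insert a A := by
    intro x hx
    rw [Equiv.swap_apply_def]
    split_ifs with h1 h2
    · exact hb
    · exact mem_insert a A
    · exact hx
  have hmA : ∀ x ∈ Insert.insert a A, (Equiv.swap a b) (g x) ∈ A := by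
    intro x hx
    rcases hmem _ (hm hx) with h | h
    · exfalso
      apply hcon
      refine ⟨x, hx, ?_⟩
      have := congrArg (Equiv.swap a b) h
      rw [Equiv.swap_apply_self, Equiv.swap_apply_left] at this
      exact this
    · exact h
  have hsub : A ⊆ Insert.insert a A := subset_insert a A
  have hs := hA _ (hc.mono hsub) (fun x hx => hmA x (hsub hx))
    (fun x hx y hy hxy => hi (hsub hx) (hsub hy) ((Equiv.swap a b).injective hxy))
  obtain ⟨x, hx, hxa⟩ := hs (hmA a (mem_insert a A))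
  have := hi (hsub hx) (mem_insert a A) ((Equiv.swap a b).injective hxa)
  exact haA (this ▸ hx)

/-- Removing one point from each side of a bijection. -/
theorem Eqv.of_insert {A B : Set M.Obj} [Rep1 M A] [Rep1 M B] {a b : M.Obj} (ha : a ∉ A)
    (hb : b ∉ B) (h : Eqv (insert a A) (insert b B)) : Eqv A B := by
  classical
  obtain ⟨g, hg, hbij⟩ := h
  have hsw : RF (Equiv.swap (g a) b) (insert b B) := RF.swap _ _ _
  have hc := hg.comp hsw hbij.mapsTo
  have hsub : A ⊆ insert a A := subset_insert a A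
  refine ⟨_, hc.mono hsub, ?_, ?_, ?_⟩
  · intro x hx
    simp only [comp_apply]
    have h1 := hbij.mapsTo (hsub hx)
    have h2 : g x ≠ g a := fun h => ha (hbij.injOn (hsub hx) (mem_insert a A) h ▸ hx)
    rw [Equiv.swap_apply_def, if_neg h2]
    split_ifs with h3
    · have h4 := hbij.mapsTo (mem_insert a A)
      rcases h4 with h4 | h4
      · rw [h4, ← h3] at h2; exact (h2 rfl).elim
      · exact h4
    · rcases h1 with h1 | h1
      · exact (h3 h1).elim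
      · exact h1
  · intro x hx y hy hxy
    exact hbij.injOn (hsub hx) (hsub hy) ((Equiv.swap (g a) b).injective hxy)
  · intro y hy
    have h1 : (Equiv.swap (g a) b) y ∈ insert b B := by
      rw [Equiv.swap_apply_def]
      split_ifs with h2 h3
      · exact mem_insert b B
      · exact hbij.mapsTo (mem_insert a A)
      · exact mem_insert_of_mem _ hy
    obtain ⟨x, hx, hxy⟩ := hbij.surjOn h1
    rcases hx with rfl | hx
    · exfalso
      have := congrArg (Equiv.swap (g x) b) hxy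
      rw [Equiv.swap_apply_left, Equiv.swap_apply_self] at this
      exact hb (this ▸ hy)
    · refine ⟨x, hx, ?_⟩
      simp only [comp_apply]
      rw [hxy, Equiv.swap_apply_self]

/-- `D` is the union of `X` and a disjoint copy of `X`. -/
def Dbl (X D : Set M.Obj) : Prop :=
  ∃ j, RF j X ∧ InjOn j X ∧ (∀ x ∈ X, j x ∉ X) ∧ D = X ∪ j '' X

theorem Dbl.rep {X D : Set M.Obj} (h : Dbl X D) : Rep1 M D := by
  obtain ⟨j, hj, _, _, rfl⟩ := h
  have := hj.dom
  have := hj.image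
  infer_instance

/-- An embedding of `X` in `Y` extends to the doubles. -/
theorem Dbl.extend {X Y D E : Set M.Obj} (hD : Dbl X D) (hE : Dbl Y E) {f : M.Obj → M.Obj}
    (hf : RF f X) (hm : MapsTo f X Y) (hi : InjOn f X) :
    ∃ F j k : M.Obj → M.Obj, RF F D ∧ MapsTo F D E ∧ InjOn F D ∧ (∀ x ∈ X, F x = f x) ∧
      (∀ x ∈ X, j x ∈ D ∧ j x ∉ X) ∧ (∀ y ∈ Y, k y ∈ E ∧ k y ∉ Y) ∧ InjOn k Y ∧
      (∀ x ∈ X, F (j x) = k (f x)) ∧ (∀ d ∈ D, d ∈ X ∨ ∃ x ∈ X, d = j x) ∧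
      (∀ d ∈ E, d ∈ Y ∨ ∃ y ∈ Y, d = k y) := by
  classical
  obtain ⟨j, hj, hji, hjX, rfl⟩ := hD
  obtain ⟨k, hk, hki, hkY, rfl⟩ := hE
  obtain ⟨l, hl, hlb, hlj⟩ := hj.inv hji
  have h1 : RF (k ∘ f) X := hf.comp hk hm
  have h2 : RF ((k ∘ f) ∘ l) (j '' X) := hl.comp h1 hlb.mapsTo
  have hF := hf.piecewise h2
  refine ⟨X.piecewise f ((k ∘ f) ∘ l), j, k, hF, ?_, ?_, ?_, ?_, ?_, hki, ?_, ?_, ?_⟩
  · intro d hd
    rcases hd with hd | ⟨x, hx, rfl⟩
    · rw [piecewise_eq_of_mem _ _ _ hd]; exact Or.inl (hm hd)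
    · rw [piecewise_eq_of_notMem _ _ _ (hjX x hx)]
      simp only [comp_apply, hlj x hx]
      exact Or.inr ⟨f x, hm hx, rfl⟩
  · intro d hd d' hd' hdd
    rcases hd with hd | ⟨x, hx, rfl⟩ <;> rcases hd' with hd' | ⟨x', hx', rfl⟩
    · rw [piecewise_eq_of_mem _ _ _ hd, piecewise_eq_of_mem _ _ _ hd'] at hdd
      exact hi hd hd' hdd
    · rw [piecewise_eq_of_mem _ _ _ hd, piecewise_eq_of_notMem _ _ _ (hjX x' hx')] at hdd
      simp only [comp_apply, hlj x' hx'] at hdd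
      exact (hkY _ (hm hx') (hdd ▸ hm hd)).elim
    · rw [piecewise_eq_of_notMem _ _ _ (hjX x hx), piecewise_eq_of_mem _ _ _ hd'] at hdd
      simp only [comp_apply, hlj x hx] at hdd
      exact (hkY _ (hm hx) (hdd ▸ hm hd')).elim
    · rw [piecewise_eq_of_notMem _ _ _ (hjX x hx), piecewise_eq_of_notMem _ _ _ (hjX x' hx')]
        at hdd
      simp only [comp_apply, hlj x hx, hlj x' hx'] at hdd
      rw [hi hx hx' (hki (hm hx) (hm hx') hdd)]
  · intro x hx; exact piecewise_eq_of_mem _ _ _ hx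
  · intro x hx; exact ⟨Or.inr ⟨x, hx, rfl⟩, hjX x hx⟩
  · intro y hy; exact ⟨Or.inr ⟨y, hy, rfl⟩, hkY y hy⟩
  · intro x hx
    rw [piecewise_eq_of_notMem _ _ _ (hjX x hx)]
    simp only [comp_apply, hlj x hx]
  · rintro d (hd | ⟨x, hx, rfl⟩)
    · exact Or.inl hd
    · exact Or.inr ⟨x, hx, rfl⟩
  · rintro d (hd | ⟨x, hx, rfl⟩)
    · exact Or.inl hd
    · exact Or.inr ⟨x, hx, rfl⟩

theorem Dbl.emb {X Y D E : Set M.Obj} (hD : Dbl X D) (hE : Dbl Y E) (h : Emb X Y) :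
    Emb D E := by
  obtain ⟨f, hf, hm, hi⟩ := h
  obtain ⟨F, j, k, h1, h2, h3, _⟩ := hD.extend hE hf hm hi
  exact ⟨F, h1, h2, h3⟩

theorem Dbl.eqv {X Y D E : Set M.Obj} (hD : Dbl X D) (hE : Dbl Y E) (h : Eqv X Y) :
    Eqv D E := by
  obtain ⟨f, hf, hb⟩ := h
  obtain ⟨F, j, k, h1, h2, h3, h4, h5, h6, h7, h8, h9, h10⟩ :=
    hD.extend hE hf hb.mapsTo hb.injOn
  refine ⟨F, h1, h2, h3, ?_⟩
  intro d hd
  rcases h10 d hd with hd | ⟨y, hy, rfl⟩
  · obtain ⟨x, hx, rfl⟩ := hb.surjOn hd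
    obtain ⟨j', _, _, _, rfl⟩ := hD
    exact ⟨x, Or.inl hx, h4 x hx⟩
  · obtain ⟨x, hx, rfl⟩ := hb.surjOn hy
    exact ⟨j x, (h5 x hx).1, h8 x hx⟩

omit hM in
theorem Dbl.subset {X D : Set M.Obj} (hD : Dbl X D) : X ⊆ D := by
  obtain ⟨j', _, _, _, rfl⟩ := hD
  exact subset_union_left

/-- If `X` embeds in `Y` and the doubles are in bijection, `X` and `Y` are in bijection. -/
theorem eqv_of_dbl_aux {X Y D E : Set M.Obj} (hD : Dbl X D) (hE : Dbl Y E) (hDF : DF D)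
    (h : Eqv D E) (hXY : Emb X Y) : Eqv X Y := by
  obtain ⟨f, hf, hm, hi⟩ := hXY
  obtain ⟨F, j, k, h1, h2, h3, h4, h5, h6, h7, h8, h9, h10⟩ := hD.extend hE hf hm hi
  have hs := hDF.surj h1 h2 h3 h.symm.emb
  refine ⟨f, hf, hm, hi, ?_⟩
  intro y hy
  obtain ⟨d, hd, hdy⟩ := hs (hE.subset hy)
  rcases h9 d hd with hd' | ⟨x, hx, rfl⟩
  · exact ⟨d, hd', by rw [← h4 d hd', hdy]⟩
  · rw [h8 x hx] at hdy
    exact ((h6 _ (hm hx)).2 (hdy ▸ hy)).elim

theorem eqv_of_dbl {X Y D E : Set M.Obj} (hD : Dbl X D) (hE : Dbl Y E) (hDF : DF D)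
    (h : Eqv D E) (hXY : Emb X Y ∨ Emb Y X) : Eqv X Y := by
  rcases hXY with h' | h'
  · exact eqv_of_dbl_aux hD hE hDF h h'
  · exact (eqv_of_dbl_aux hE hD (hDF.eqv h) h.symm h').symm

/-- A double is never in bijection with a double plus one point. -/
theorem not_eqv_dbl_insert {X Y D E : Set M.Obj} (hD : Dbl X D) (hE : Dbl Y E) (hDF : DF D)
    {e : M.Obj} (he : e ∉ E) (hXY : Emb X Y ∨ Emb Y X) : ¬ Eqv D (insert e E) := by
  classical
  intro h
  have key : ¬ Emb X Y := by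
    rintro ⟨f, hf, hm, hi⟩
    obtain ⟨F, j, k, h1, h2, h3, _⟩ := hD.extend hE hf hm hi
    have hs := hDF.surj (B := insert e E) h1 (fun x hx => mem_insert_of_mem _ (h2 hx)) h3
      h.symm.emb
    obtain ⟨d, hd, hde⟩ := hs (mem_insert e E)
    exact he (hde ▸ h2 hd)
  rcases hXY with h' | h'
  · exact key h'
  · obtain ⟨f, hf, hm, hi⟩ := h'
    by_cases hsurj : SurjOn f Y X
    · exact key (Eqv.symm ⟨f, hf, hm, hi, hsurj⟩).emb
    · obtain ⟨x0, hx0, hx0f⟩ := not_subset.mp hsurj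
      obtain ⟨F, j, k, h1, h2, h3, h4, h5, h6, h7, h8, h9, h10⟩ := hE.extend hD hf hm hi
      -- `F : E → D`, extended by `e ↦ x0`, misses `k x0`
      have hE' := hE.rep
      have hc : RF (fun _ => x0) {e} := RF.of_rp (by
        change Rp M (fun q => q 0 ∈ ({e} : Set M.Obj) ∧ q 1 = x0)
        infer_instance)
      have hF' := hc.piecewise h1
      have hins : ({e} : Set M.Obj) ∪ E = insert e E := rfl
      rw [hins] at hF'
      have hx0D : x0 ∈ D := hD.subset hx0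
      have hFx0 : ∀ d ∈ E, F d ≠ x0 := by
        intro d hd hdx
        rcases h9 d hd with hd' | ⟨y, hy, rfl⟩
        · exact hx0f ⟨d, hd', by rw [← h4 d hd', hdx]⟩
        · rw [h8 y hy] at hdx
          exact (h6 _ (hm hy)).2 (hdx ▸ hx0)
      have hv1 : ({e} : Set M.Obj).piecewise (fun _ => x0) F e = x0 :=
        piecewise_eq_of_mem _ _ _ rfl
      have hv2 : ∀ d ∈ E, ({e} : Set M.Obj).piecewise (fun _ => x0) F d = F d := by
        intro d hd
        apply piecewise_eq_of_notMem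
        intro hde
        exact he (hde ▸ hd)
      have hDE : DF (insert e E) := hDF.eqv h
      have hs := hDE.surj (B := D) hF' (by
        intro d hd
        rcases hd with rfl | hd
        · rw [hv1]; exact hx0D
        · rw [hv2 d hd]; exact h2 hd) (by
        intro d hd d' hd' hdd
        rcases hd with rfl | hd <;> rcases hd' with rfl | hd'
        · rfl
        · rw [hv1, hv2 d' hd'] at hdd; exact (hFx0 d' hd' hdd.symm).elim
        · rw [hv1, hv2 d hd] at hdd; exact (hFx0 d hd hdd).elim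
        · rw [hv2 d hd, hv2 d' hd'] at hdd; exact h3 hd hd' hdd) h.emb
      obtain ⟨d, hd, hdk⟩ := hs (h6 x0 hx0).1
      rcases hd with rfl | hd
      · rw [hv1] at hdk
        exact (h6 x0 hx0).2 (hdk ▸ hx0)
      · rw [hv2 d hd] at hdk
        rcases h9 d hd with hd' | ⟨y, hy, rfl⟩
        · rw [h4 d hd'] at hdk
          exact (h6 x0 hx0).2 (hdk ▸ hm hd')
        · rw [h8 y hy] at hdk
          exact hx0f ⟨y, hy, h7 (hm hy) hx0 hdk⟩

end

end Pool.Agent.Hume
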