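import Pool.Agent.Hume.Sets

/-!
Numbers of represented sets, good sets, and the ideal of small sets.
-/

namespace Pool.Agent.Hume

open Set Function

/-- Hume's Principle as a class. -/
class HPStr (M : Str Empty) : Prop where
  hp : M.HumePrinciple

section
variable {M : Str Empty} [hM : CompStr M]

omit hM in
theorem exists_fun_of_isBij {R : M.Rel 1} {X Y : M.Rel 0} (h : M.IsBij R X Y) :
    ∃ g, gr g (M.s X) = M.p R ∧ BijOn g (M.s X) (M.s Y) := by
  classical
  obtain ⟨h1, h2, h3⟩ := h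
  have hch : ∀ x, ∃ y, M.Mem x X → M.Pair R x y := by
    intro x
    by_cases hx : M.Mem x X
    · obtain ⟨y, hy, _⟩ := h2 x hx
      exact ⟨y, fun _ => hy⟩
    · exact ⟨x, fun h => (hx h).elim⟩
  choose g hg using hch
  have hgr : gr g (M.s X) = M.p R := by
    ext ⟨x, y⟩
    constructor
    · rintro ⟨hx, hy⟩
      change y = g x at hy
      subst hy
      exact hg x hx
    · intro h
      have hx := (h1 x y h).1
      exact ⟨hx, (h2 x hx).unique h (hg x hx)⟩
  refine ⟨g, hgr, ?_, ?_, ?_⟩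
  · intro x hx
    exact (h1 x (g x) (hg x hx)).2
  · intro x hx x' hx' hxx
    have := hg x' hx'
    rw [← hxx] at this
    exact (h3 (g x) (h1 x (g x) (hg x hx)).2).unique (hg x hx) this
  · intro y hy
    obtain ⟨x, hx, _⟩ := h3 y hy
    have hxX := (h1 x y hx).1
    exact ⟨x, hxX, (h2 x hxX).unique (hg x hxX) hx⟩

omit hM in
theorem isBij_of_fun {R : M.Rel 1} {X Y : M.Rel 0} {g : M.Obj → M.Obj}
    (hR : gr g (M.s X) = M.p R) (hb : BijOn g (M.s X) (M.s Y)) : M.IsBij R X Y := by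
  have hR' : ∀ x y, M.Pair R x y ↔ M.Mem x X ∧ y = g x := by
    intro x y
    have : (x, y) ∈ M.p R ↔ (x, y) ∈ gr g (M.s X) := by rw [hR]
    exact this
  refine ⟨?_, ?_, ?_⟩
  · intro x y h
    obtain ⟨hx, rfl⟩ := (hR' x y).mp h
    exact ⟨hx, hb.mapsTo hx⟩
  · intro x hx
    exact ⟨g x, (hR' _ _).mpr ⟨hx, rfl⟩, fun y hy => ((hR' _ _).mp hy).2⟩
  · intro y hy
    obtain ⟨x, hx, rfl⟩ := hb.surjOn hy
    refine ⟨x, (hR' _ _).mpr ⟨hx, rfl⟩, ?_⟩
    intro x' hx'
    obtain ⟨h1, h2⟩ := (hR' _ _).mp hx'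
    exact hb.injOn h1 hx h2.symm

omit hM in
theorem isBij_iff {X Y : M.Rel 0} : (∃ R, M.IsBij R X Y) ↔ Eqv (M.s X) (M.s Y) := by
  constructor
  · rintro ⟨R, h⟩
    obtain ⟨g, hg, hb⟩ := exists_fun_of_isBij h
    refine ⟨g, ?_, hb⟩
    unfold RF; rw [hg]; infer_instance
  · rintro ⟨g, hg, hb⟩
    obtain ⟨R, hR⟩ := hg.exists_p
    exact ⟨R, isBij_of_fun hR.symm hb⟩

open Classical in
/-- The number of a represented set. -/
noncomputable def nm (A : Set M.Obj) : M.Obj :=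
  if h : Rep1 M A then M.num h.exists_s.choose else M.neObj.some

variable [hH : HPStr M]

theorem num_eq_iff {X Y : M.Rel 0} : M.num X = M.num Y ↔ Eqv (M.s X) (M.s Y) := by
  rw [hH.hp X Y, isBij_iff]

theorem nm_s (X : M.Rel 0) : nm (M.s X) = M.num X := by
  have h : Rep1 M (M.s X) := inferInstance
  unfold nm
  rw [dif_pos h, num_eq_iff, h.exists_s.choose_spec]
  exact Eqv.refl _

theorem nm_eq_iff {A B : Set M.Obj} [hA : Rep1 M A] [hB : Rep1 M B] :
    nm A = nm B ↔ Eqv A B := by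
  obtain ⟨X, rfl⟩ := hA.exists_s
  obtain ⟨Y, rfl⟩ := hB.exists_s
  rw [nm_s, nm_s, num_eq_iff]

end

section
variable {M : Str Empty} [hM : CompStr M]

theorem RF.union {g : M.Obj → M.Obj} {A B : Set M.Obj} (hA : RF g A) (hB : RF g B) :
    RF g (A ∪ B) := by
  have h1 : Rep2 M (gr g A) := hA
  have h2 : Rep2 M (gr g B) := hB
  have : gr g (A ∪ B) = {q | (q.1, q.2) ∈ gr g A ∨ (q.1, q.2) ∈ gr g B} := by
    ext ⟨x, y⟩
    simp only [mem_gr, mem_ofPred_eq, mem_union]
    tauto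
  unfold RF
  rw [this]
  exact Rep2.of_rp (p := fun x y => (x, y) ∈ gr g A ∨ (x, y) ∈ gr g B) inferInstance

theorem RF.const (c : M.Obj) (A : Set M.Obj) [Rep1 M A] : RF (fun _ => c) A := by
  apply RF.of_rp
  infer_instance

/-- A functional set of pairs. -/
def Fnl (F : Set (M.Obj × M.Obj)) : Prop := ∀ x y y', (x, y) ∈ F → (x, y') ∈ F → y = y'

/-- The column of a set of pairs. -/
def colm (S : Set (M.Obj × M.Obj)) (n : M.Obj) : Set M.Obj := {y | (n, y) ∈ S}

instance Rep1.colm (S : Set (M.Obj × M.Obj)) [Rep2 M S] (n : M.Obj) : Rep1 M (colm S n) :=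
  Rep1.of_rp (p := fun y => (n, y) ∈ S) inferInstance

/-- A set is good if the function `n ↦ #(S_n)` is represented on it for all represented `S`. -/
def SGood (P : Set M.Obj) : Prop :=
  ∀ S : Set (M.Obj × M.Obj), Rep2 M S → RF (fun n => nm (colm S n)) P

theorem SGood.subset {P Q : Set M.Obj} (h : SGood P) [Rep1 M Q] (hQ : Q ⊆ P) : SGood Q :=
  fun S hS => (h S hS).mono hQ

theorem SGood.union {P Q : Set M.Obj} (h : SGood P) (h' : SGood Q) : SGood (P ∪ Q) :=
  fun S hS => (h S hS).union (h' S hS)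

theorem SGood.singleton (a : M.Obj) : SGood {a} := by
  intro S hS
  refine (RF.const (nm (colm S a)) {a}).congr ?_
  intro x hx
  rw [mem_singleton_iff] at hx
  rw [hx]

theorem SGood.empty : SGood (∅ : Set M.Obj) := by
  intro S hS
  refine (RF.id ∅).congr ?_
  intro x hx
  exact hx.elim

theorem SGood.insert {P : Set M.Obj} (h : SGood P) (a : M.Obj) : SGood (insert a P) :=
  (SGood.singleton a).union h

theorem SGood.img {P : Set M.Obj} (h : SGood P) {F : Set (M.Obj × M.Obj)} [hP : Rep1 M P]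
    [hF : Rep2 M F] (hf : Fnl F) : SGood (img F P) := by
  intro S hS
  let S' : Set (M.Obj × M.Obj) := {q | ∃ z, (q.1, z) ∈ F ∧ (z, q.2) ∈ S}
  have hS' : Rep2 M S' := Rep2.of_rp (p := fun x y => ∃ z, (x, z) ∈ F ∧ (z, y) ∈ S) inferInstance
  have hG : Rep2 M (gr (fun n => nm (colm S' n)) P) := h S' hS'
  have hcol : ∀ x n, (x, n) ∈ F → colm S' x = colm S n := by
    intro x n hxn
    ext y
    constructor
    · rintro ⟨z, hz, hzy⟩
      have : z = n := hf x z n hz hxn
      subst this; exact hzy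
    · intro hy; exact ⟨n, hxn, hy⟩
  have : gr (fun n => nm (colm S n)) (Hume.img F P) =
      {q | ∃ x, x ∈ P ∧ (x, q.1) ∈ F ∧ (x, q.2) ∈ gr (fun n => nm (colm S' n)) P} := by
    ext ⟨n, m⟩
    simp only [mem_gr, mem_ofPred_eq]
    constructor
    · rintro ⟨⟨x, hx, hxn⟩, rfl⟩
      exact ⟨x, hx, hxn, hx, by rw [hcol x n hxn]⟩
    · rintro ⟨x, hx, hxn, _, rfl⟩
      exact ⟨⟨x, hx, hxn⟩, by rw [hcol x n hxn]⟩
  unfold RF
  rw [this]
  exact Rep2.of_rp (p := fun n m => ∃ x, x ∈ P ∧ (x, n) ∈ F ∧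
    (x, m) ∈ gr (fun n => nm (colm S' n)) P) inferInstance

omit hM in
theorem img_gr {g : M.Obj → M.Obj} {A : Set M.Obj} : img (gr g A) A = g '' A := by
  ext y
  constructor
  · rintro ⟨x, hx, _, hy⟩; exact ⟨x, hx, hy.symm⟩
  · rintro ⟨x, hx, rfl⟩; exact ⟨x, hx, hx, rfl⟩

omit hM in
theorem Fnl.gr (g : M.Obj → M.Obj) (A : Set M.Obj) : Fnl (gr g A) := by
  rintro x y y' ⟨_, h1⟩ ⟨_, h2⟩
  exact h1.trans h2.symm

theorem SGood.image {P : Set M.Obj} (h : SGood P) {g : M.Obj → M.Obj} (hg : RF g P) :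
    SGood (g '' P) := by
  have hP := hg.dom
  have hg' : Rep2 M (Hume.gr g P) := hg
  have := h.img (F := Hume.gr g P) (Fnl.gr g P)
  rwa [img_gr] at this

/-- Comparability of the subsets of `Q`. -/
def SComp (Q : Set M.Obj) : Prop :=
  ∀ A B, Rep1 M A → Rep1 M B → A ⊆ Q → B ⊆ Q → Emb A B ∨ Emb B A

/-- `Q` has a Dedekind finite double. -/
def SDisj (Q : Set M.Obj) : Prop := ∃ D, Dbl Q D ∧ DF D

structure SPhi (Q : Set M.Obj) : Prop where
  rep : Rep1 M Q
  good : SGood Q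
  cmp : SComp Q
  disj : SDisj Q

/-- Small sets. -/
structure SJ (P : Set M.Obj) : Prop where
  rep : Rep1 M P
  out : ∀ F, Rep2 M F → Fnl F → ∀ Q, SPhi Q → SPhi (Q ∪ img F P)

theorem Dbl.good {Q D : Set M.Obj} (h : Dbl Q D) (hQ : SGood Q) : SGood D := by
  obtain ⟨j, hj, _, _, rfl⟩ := h
  exact hQ.union (hQ.image hj)

theorem Emb.insert {A B : Set M.Obj} {a b : M.Obj} (h : Emb A B) (ha : a ∉ A) (hb : b ∉ B) :
    Emb (insert a A) (insert b B) := by
  classical
  obtain ⟨f, hf, hm, hi⟩ := h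
  have h1 := (RF.const b ({a} : Set M.Obj)).piecewise hf
  have e1 : ({a} : Set M.Obj).piecewise (fun _ => b) f a = b := piecewise_eq_of_mem _ _ _ rfl
  have e2 : ∀ x ∈ A, ({a} : Set M.Obj).piecewise (fun _ => b) f x = f x := by
    intro x hx
    apply piecewise_eq_of_notMem
    intro hxa
    exact ha (hxa ▸ hx)
  refine ⟨_, h1, ?_, ?_⟩
  · rintro x (rfl | hx)
    · rw [e1]; exact mem_insert _ _
    · rw [e2 x hx]; exact mem_insert_of_mem _ (hm hx)
  · rintro x (rfl | hx) y (rfl | hy) hxy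
    · rfl
    · rw [e1, e2 y hy] at hxy; exact (hb (hxy ▸ hm hy)).elim
    · rw [e1, e2 x hx] at hxy; exact (hb (hxy ▸ hm hx)).elim
    · rw [e2 x hx, e2 y hy] at hxy; exact hi hx hy hxy

theorem cmp_insert {A B : Set M.Obj} [Rep1 M A] [Rep1 M B] {b : M.Obj} (hb : b ∉ A)
    (h : Emb A B ∨ Emb B A) : Emb (insert b A) B ∨ Emb B (insert b A) := by
  classical
  have hsub : Emb A (insert b A) := Emb.of_subset (subset_insert b A)
  rcases h with h | h
  · obtain ⟨f, hf, hm, hi⟩ := h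
    by_cases hs : SurjOn f A B
    · right
      exact (Eqv.symm ⟨f, hf, hm, hi, hs⟩).emb.trans hsub
    · left
      obtain ⟨y, hy, hyf⟩ := not_subset.mp hs
      have h1 : Emb A (B \ {y}) := by
        refine ⟨f, hf, fun x hx => ⟨hm hx, ?_⟩, hi⟩
        intro hxy
        rw [mem_singleton_iff] at hxy
        exact hyf ⟨x, hx, hxy⟩
      have h2 := h1.insert (a := b) (b := y) hb (fun h => h.2 rfl)
      rwa [insert_sdiff_singleton, insert_eq_of_mem hy] at h2
  · right
    exact h.trans hsub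

theorem SComp.insert {Q : Set M.Obj} (h : SComp Q) (b : M.Obj) : SComp (insert b Q) := by
  intro A B hA hB hAQ hBQ
  have hA' : A \ {b} ⊆ Q := by
    rintro x ⟨hx, hxb⟩
    rcases hAQ hx with h | h
    · exact (hxb h).elim
    · exact h
  have hB' : B \ {b} ⊆ Q := by
    rintro x ⟨hx, hxb⟩
    rcases hBQ hx with h | h
    · exact (hxb h).elim
    · exact h
  have h0 := h _ _ inferInstance inferInstance hA' hB'
  have step1 : Emb A (B \ {b}) ∨ Emb (B \ {b}) A := by
    by_cases hbA : b ∈ A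
    · have := cmp_insert (b := b) (fun h => h.2 rfl) h0
      rwa [insert_sdiff_singleton, insert_eq_of_mem hbA] at this
    · rwa [sdiff_singleton_eq_self hbA] at h0
  by_cases hbB : b ∈ B
  · have := cmp_insert (b := b) (fun h => h.2 rfl) step1.symm
    rw [insert_sdiff_singleton, insert_eq_of_mem hbB] at this
    exact this.symm
  · rwa [sdiff_singleton_eq_self hbB] at step1

theorem SPhi.empty : SPhi (∅ : Set M.Obj) := by
  refine ⟨inferInstance, SGood.empty, ?_, ?_⟩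
  · intro A B hA hB h1 h2
    rw [subset_empty_iff] at h1 h2
    subst h1 h2
    left; exact Emb.of_subset subset_rfl
  · refine ⟨∅, ⟨_, RF.id ∅, injOn_empty _, ?_, by simp⟩, DF.empty⟩
    intro x hx; exact hx.elim

/-- The universe is not good. -/
class NotGood (M : Str Empty) [CompStr M] : Prop where
  out : ¬ SGood (Set.univ : Set M.Obj)

theorem SGood.fresh [hN : NotGood M] {A : Set M.Obj} (h : SGood A) : ∃ x, x ∉ A := by
  by_contra hcon
  push Not at hcon
  apply hN.out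
  have : A = Set.univ := eq_univ_of_forall hcon
  rwa [this] at h

theorem SPhi.insert [hN : NotGood M] {Q : Set M.Obj} (h : SPhi Q) (b : M.Obj) :
    SPhi (insert b Q) := by
  classical
  by_cases hbQ : b ∈ Q
  · rwa [insert_eq_of_mem hbQ]
  have hQr := h.rep
  refine ⟨inferInstance, h.good.insert b, h.cmp.insert b, ?_⟩
  obtain ⟨D, hD, hDF⟩ := h.disj
  have hDg := hD.good h.good
  have hDr := hD.rep
  obtain ⟨y, hy⟩ := (hDg.insert b).fresh
  obtain ⟨x, hx⟩ := ((hDg.insert b).insert y).fresh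
  obtain ⟨j, hj, hji, hjQ, rfl⟩ := hD
  have hyb : y ≠ b := fun h => hy (Or.inl h)
  have hyD : y ∉ Q ∪ j '' Q := fun h => hy (Or.inr h)
  have hxy : x ≠ y := fun h => hx (Or.inl h)
  have hxb : x ≠ b := fun h => hx (Or.inr (Or.inl h))
  have hxD : x ∉ Q ∪ j '' Q := fun h => hx (Or.inr (Or.inr h))
  have himr := hj.image
  -- move the copy off `b`
  have h1 : RF (Equiv.swap b y ∘ j) Q := hj.comp (RF.swap b y (j '' Q)) (mapsTo_image j Q)
  have hk := (RF.const x ({b} : Set M.Obj)).piecewise h1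
  have hU : ({b} : Set M.Obj) ∪ Q = Insert.insert b Q := rfl
  rw [hU] at hk
  have e1 : ({b} : Set M.Obj).piecewise (fun _ => x) (Equiv.swap b y ∘ j) b = x :=
    piecewise_eq_of_mem _ _ _ rfl
  have e2 : ∀ q ∈ Q, ({b} : Set M.Obj).piecewise (fun _ => x) (Equiv.swap b y ∘ j) q =
      Equiv.swap b y (j q) := by
    intro q hq
    apply piecewise_eq_of_notMem
    intro hqb
    exact hbQ (hqb ▸ hq)
  have hsw : ∀ q ∈ Q, (j q = b ∧ Equiv.swap b y (j q) = y) ∨
      (j q ≠ b ∧ Equiv.swap b y (j q) = j q) := by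
    intro q hq
    by_cases hjb : j q = b
    · left; exact ⟨hjb, by rw [hjb, Equiv.swap_apply_left]⟩
    · right
      refine ⟨hjb, Equiv.swap_apply_of_ne_of_ne hjb ?_⟩
      intro hjy
      exact hyD (Or.inr ⟨q, hq, hjy⟩)
  refine ⟨Insert.insert b Q ∪ ({b} : Set M.Obj).piecewise (fun _ => x) (Equiv.swap b y ∘ j) ''
    Insert.insert b Q, ⟨_, hk, ?_, ?_, rfl⟩, ?_⟩
  · rintro u (rfl | hu) v (rfl | hv) huv
    · rfl
    · rw [e1, e2 v hv] at huv
      rcases hsw v hv with ⟨_, h3⟩ | ⟨_, h3⟩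
      · rw [h3] at huv; exact (hxy huv).elim
      · rw [h3] at huv; exact (hxD (Or.inr ⟨v, hv, huv.symm⟩)).elim
    · rw [e1, e2 u hu] at huv
      rcases hsw u hu with ⟨_, h3⟩ | ⟨_, h3⟩
      · rw [h3] at huv; exact (hxy huv.symm).elim
      · rw [h3] at huv; exact (hxD (Or.inr ⟨u, hu, huv⟩)).elim
    · rw [e2 u hu, e2 v hv] at huv
      exact hji hu hv ((Equiv.swap b y).injective huv)
  · rintro u (rfl | hu)
    · rw [e1]
      rintro (h3 | h3)
      · exact hxb h3
      · exact hxD (Or.inl h3)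
    · rw [e2 u hu]
      rcases hsw u hu with ⟨_, h3⟩ | ⟨h4, h3⟩
      · rw [h3]
        rintro (h5 | h5)
        · exact hyb h5
        · exact hyD (Or.inl h5)
      · rw [h3]
        rintro (h5 | h5)
        · exact h4 h5
        · exact hjQ u hu h5
  · have hbig : DF (Insert.insert x (Insert.insert y (Insert.insert b (Q ∪ j '' Q)))) :=
      ((hDF.insert b).insert y).insert x
    have hrep : Rep1 M (({b} : Set M.Obj).piecewise (fun _ => x) (Equiv.swap b y ∘ j) ''
      Insert.insert b Q) := hk.image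
    apply hbig.subset
    rintro d (hd | ⟨u, (rfl | hu), rfl⟩)
    · rcases hd with rfl | hd
      · exact Or.inr (Or.inr (Or.inl rfl))
      · exact Or.inr (Or.inr (Or.inr (Or.inl hd)))
    · rw [e1]; exact Or.inl rfl
    · rw [e2 u hu]
      rcases hsw u hu with ⟨_, h3⟩ | ⟨h4, h3⟩
      · rw [h3]; exact Or.inr (Or.inl rfl)
      · rw [h3]; exact Or.inr (Or.inr (Or.inr (Or.inr ⟨u, hu, rfl⟩)))

theorem SJ.img {P : Set M.Obj} (h : SJ P) {G : Set (M.Obj × M.Obj)} [hG : Rep2 M G]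
    (hGf : Fnl G) : SJ (img G P) := by
  have := h.rep
  refine ⟨inferInstance, ?_⟩
  intro F hF hFf Q hQ
  let H : Set (M.Obj × M.Obj) := {q | ∃ z, (q.1, z) ∈ G ∧ (z, q.2) ∈ F}
  have hH : Rep2 M H := Rep2.of_rp (p := fun x y => ∃ z, (x, z) ∈ G ∧ (z, y) ∈ F) inferInstance
  have hHf : Fnl H := by
    rintro x y y' ⟨z, h1, h2⟩ ⟨z', h1', h2'⟩
    have : z = z' := hGf x z z' h1 h1'
    subst this
    exact hFf z y y' h2 h2'
  have := h.out H hH hHf Q hQ
  have e : Hume.img H P = Hume.img F (Hume.img G P) := by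
    ext y
    constructor
    · rintro ⟨x, hx, z, h1, h2⟩; exact ⟨z, ⟨x, hx, h1⟩, h2⟩
    · rintro ⟨z, ⟨x, hx, h1⟩, h2⟩; exact ⟨x, hx, z, h1, h2⟩
  rwa [e] at this

theorem SJ.image {P : Set M.Obj} (h : SJ P) {g : M.Obj → M.Obj} (hg : RF g P) :
    SJ (g '' P) := by
  have hg' : Rep2 M (Hume.gr g P) := hg
  have := h.img (G := Hume.gr g P) (Fnl.gr g P)
  rwa [img_gr] at this

theorem SJ.union {P P' : Set M.Obj} (h : SJ P) (h' : SJ P') : SJ (P ∪ P') := by
  have := h.rep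
  have := h'.rep
  refine ⟨inferInstance, ?_⟩
  intro F hF hFf Q hQ
  have h1 := h'.out F hF hFf _ (h.out F hF hFf Q hQ)
  have e : Q ∪ Hume.img F P ∪ Hume.img F P' = Q ∪ Hume.img F (P ∪ P') := by
    ext y
    simp only [mem_union, Hume.img, mem_ofPred_eq]
    constructor
    · rintro ((h | ⟨x, hx, hxy⟩) | ⟨x, hx, hxy⟩)
      · exact Or.inl h
      · exact Or.inr ⟨x, Or.inl hx, hxy⟩
      · exact Or.inr ⟨x, Or.inr hx, hxy⟩
    · rintro (h | ⟨x, hx | hx, hxy⟩)
      · exact Or.inl (Or.inl h)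
      · exact Or.inl (Or.inr ⟨x, hx, hxy⟩)
      · exact Or.inr ⟨x, hx, hxy⟩
  rwa [e] at h1

theorem SJ.subset {P P' : Set M.Obj} (h : SJ P) [hP' : Rep1 M P'] (hsub : P' ⊆ P) : SJ P' := by
  have hid : Rep2 M (gr id P') := RF.id P'
  have h1 := h.img (G := gr id P') (Fnl.gr id P')
  have e : Hume.img (gr id P') P = P' := by
    ext y
    constructor
    · rintro ⟨x, _, hx, hy⟩
      change y = x at hy
      rw [hy]; exact hx
    · intro hy; exact ⟨y, hsub hy, hy, rfl⟩
  rwa [e] at h1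

theorem SJ.phi {P : Set M.Obj} (h : SJ P) : SPhi P := by
  have := h.rep
  have h1 := h.out (gr id P) (RF.id P) (Fnl.gr id P) ∅ SPhi.empty
  rwa [img_gr, image_id, empty_union] at h1

theorem SJ.empty : SJ (∅ : Set M.Obj) := by
  refine ⟨inferInstance, ?_⟩
  intro F hF hFf Q hQ
  have : Hume.img F (∅ : Set M.Obj) = ∅ := by
    ext y; simp [Hume.img]
  rwa [this, union_empty]

theorem SJ.singleton [NotGood M] (a : M.Obj) : SJ ({a} : Set M.Obj) := by
  refine ⟨inferInstance, ?_⟩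
  intro F hF hFf Q hQ
  by_cases h : ∃ b, (a, b) ∈ F
  · obtain ⟨b, hb⟩ := h
    have : Hume.img F ({a} : Set M.Obj) = {b} := by
      ext y
      constructor
      · rintro ⟨x, hx, hxy⟩
        rw [mem_singleton_iff] at hx
        subst hx
        exact hFf x y b hxy hb
      · intro hy
        rw [mem_singleton_iff] at hy
        subst hy
        exact ⟨a, rfl, hb⟩
    rw [this, union_comm]
    exact hQ.insert b
  · have : Hume.img F ({a} : Set M.Obj) = ∅ := by
      ext y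
      simp only [Hume.img, mem_ofPred_eq, mem_singleton_iff, mem_empty_iff_false, iff_false]
      rintro ⟨x, rfl, hxy⟩
      exact h ⟨y, hxy⟩
    rwa [this, union_empty]

theorem SJ.insert [NotGood M] {P : Set M.Obj} (h : SJ P) (a : M.Obj) : SJ (insert a P) :=
  (SJ.singleton a).union h

theorem SJ.fresh [NotGood M] {P : Set M.Obj} (h : SJ P) : ∃ x, x ∉ P := h.phi.good.fresh

theorem SJ.not_compl [NotGood M] {P : Set M.Obj} (h : SJ P) : ¬ SJ Pᶜ := by
  intro h'
  have h1 := h.union h'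
  rw [union_compl_self] at h1
  obtain ⟨x, hx⟩ := h1.fresh
  exact hx trivial

theorem SJ.cmp {P Q : Set M.Obj} (h : SJ P) (h' : SJ Q) : Emb P Q ∨ Emb Q P :=
  (h.union h').phi.cmp P Q h.rep h'.rep subset_union_left subset_union_right

theorem SJ.exists_dbl {P : Set M.Obj} (h : SJ P) : ∃ D, Dbl P D ∧ DF D := h.phi.disj

theorem SJ.df_dbl {P D : Set M.Obj} (h : SJ P) (hD : Dbl P D) : DF D := by
  obtain ⟨E, hE, hF⟩ := h.exists_dbl
  have := h.rep
  exact hF.eqv (hE.eqv hD (Eqv.refl P))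

theorem SJ.df {P : Set M.Obj} (h : SJ P) : DF P := by
  obtain ⟨E, hE, hF⟩ := h.exists_dbl
  have := h.rep
  have := hE.rep
  exact hF.subset hE.subset

theorem SJ.dbl {P D : Set M.Obj} (h : SJ P) (hD : Dbl P D) : SJ D := by
  obtain ⟨j, hj, _, _, rfl⟩ := hD
  exact h.union (h.image hj)

end

end Pool.Agent.Hume
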